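import Mathlib

set_option autoImplicit false

/-! Project MQ, job BOR (part A): Laplace transform of an entire function of exponential type. -/

namespace Pool.Agent.Q239.MQ.BR

open Filter Topology MeasureTheory Set

theorem pow_exp_int (n : ℕ) {b : ℝ} (hb : 0 < b) :
    IntegrableOn (fun t : ℝ => t ^ n * Real.exp (-(b * t))) (Ioi 0) := by
  have hn : (0 : ℝ) ≤ n := Nat.cast_nonneg n
  have hn1 : (-1 : ℝ) < n := by linarith
  have h := integrableOn_rpow_mul_exp_neg_mul_rpow (s := n) (p := 1) (b := b) hn1 one_pos hb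
  refine h.congr_fun (fun t _ => ?_) measurableSet_Ioi
  simp only [Real.rpow_natCast, Real.rpow_one, neg_mul]

theorem pow_exp_tend (n : ℕ) {b : ℝ} (hb : 0 < b) :
    Tendsto (fun t : ℝ => t ^ n * Real.exp (-(b * t))) atTop (𝓝 0) := by
  have h1 := (Real.tendsto_pow_mul_exp_neg_atTop_nhds_zero n).comp
    (tendsto_id.const_mul_atTop hb : Tendsto (fun t : ℝ => b * t) atTop atTop)
  have h2 := h1.const_mul ((b ^ n)⁻¹)
  rw [mul_zero] at h2
  refine h2.congr (fun t => ?_)
  simp only [Function.comp, mul_pow]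
  field_simp

theorem cexp_norm (w : ℂ) (t : ℝ) : ‖Complex.exp (-w * t)‖ = Real.exp (-(w.re * t)) := by
  rw [Complex.norm_exp]
  congr 1
  simp

theorem cpow_exp_norm (n : ℕ) (w : ℂ) {t : ℝ} (ht : 0 ≤ t) :
    ‖(t : ℂ) ^ n * Complex.exp (-w * t)‖ = t ^ n * Real.exp (-(w.re * t)) := by
  rw [norm_mul, cexp_norm, norm_pow, Complex.norm_real, Real.norm_eq_abs, abs_of_nonneg ht]

theorem cpow_exp_int (n : ℕ) {w : ℂ} (hw : 0 < w.re) :
    IntegrableOn (fun t : ℝ => (t : ℂ) ^ n * Complex.exp (-w * t)) (Ioi 0) := by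
  refine Integrable.mono' (pow_exp_int n hw)
    (by fun_prop : Continuous fun t : ℝ => (t : ℂ) ^ n * Complex.exp (-w * t)).aestronglyMeasurable ?_
  refine (ae_restrict_iff' measurableSet_Ioi).2 (Eventually.of_forall fun t ht => ?_)
  rw [cpow_exp_norm n w (le_of_lt ht)]

theorem cpow_exp_integral (n : ℕ) {w : ℂ} (hw : 0 < w.re) :
    ∫ t in Ioi (0 : ℝ), (t : ℂ) ^ n * Complex.exp (-w * t) = n.factorial / w ^ (n + 1) := by
  have hw0 : w ≠ 0 := by intro h; rw [h] at hw; simp at hw
  induction n with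
  | zero =>
    have := integral_exp_mul_complex_Ioi (a := -w) (by simpa using hw) 0
    simp only [pow_zero, one_mul, Nat.factorial_zero, Nat.cast_one, zero_add, pow_one]
    rw [this]
    simp
  | succ n ih =>
    have hd : ∀ t ∈ Ici (0 : ℝ), HasDerivAt (fun t : ℝ => (t : ℂ) ^ (n + 1) * Complex.exp (-w * t))
        ((n + 1) * ((t : ℂ) ^ n * Complex.exp (-w * t)) - w * ((t : ℂ) ^ (n + 1) * Complex.exp (-w * t))) t := by
      intro t _
      have h1 : HasDerivAt (fun t : ℝ => (t : ℂ)) 1 t := Complex.ofRealCLM.hasDerivAt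
      have h2 := h1.pow (n + 1)
      have h3 := (h1.const_mul (-w)).cexp
      have h4 := h2.mul h3
      refine h4.congr_deriv ?_
      push_cast
      simp only [Pi.pow_apply]
      ring
    have hi : IntegrableOn (fun t : ℝ => (n + 1) * ((t : ℂ) ^ n * Complex.exp (-w * t)) -
        w * ((t : ℂ) ^ (n + 1) * Complex.exp (-w * t))) (Ioi 0) :=
      ((cpow_exp_int n hw).const_mul _).sub ((cpow_exp_int (n + 1) hw).const_mul _)
    have ht : Tendsto (fun t : ℝ => (t : ℂ) ^ (n + 1) * Complex.exp (-w * t)) atTop (𝓝 0) := by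
      rw [tendsto_zero_iff_norm_tendsto_zero]
      refine (pow_exp_tend (n + 1) hw).congr' ?_
      filter_upwards [eventually_ge_atTop 0] with t ht
      rw [cpow_exp_norm (n + 1) w ht]
    have := integral_Ioi_of_hasDerivAt_of_tendsto' hd hi ht
    rw [integral_sub ((cpow_exp_int n hw).const_mul _) ((cpow_exp_int (n + 1) hw).const_mul _),
      integral_const_mul, integral_const_mul, ih] at this
    simp only [Complex.ofReal_zero, ne_eq, Nat.succ_ne_zero, not_false_eq_true, zero_pow, zero_mul, sub_zero] at this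
    have h5 : w * ∫ t in Ioi (0 : ℝ), (t : ℂ) ^ (n + 1) * Complex.exp (-w * t) =
        (n + 1) * (n.factorial / w ^ (n + 1)) := (sub_eq_zero.1 this).symm
    rw [eq_div_iff (pow_ne_zero _ hw0), Nat.factorial_succ]
    have h6 : (∫ t in Ioi (0 : ℝ), (t : ℂ) ^ (n + 1) * Complex.exp (-w * t)) * w ^ (n + 1 + 1) =
        (w * ∫ t in Ioi (0 : ℝ), (t : ℂ) ^ (n + 1) * Complex.exp (-w * t)) * w ^ (n + 1) := by ring
    rw [h6, h5]
    push_cast
    field_simp

theorem pow_exp_integral (n : ℕ) {b : ℝ} (hb : 0 < b) :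
    ∫ t in Ioi (0 : ℝ), t ^ n * Real.exp (-(b * t)) = n.factorial / b ^ (n + 1) := by
  have h := cpow_exp_integral n (w := (b : ℂ)) (by simpa using hb)
  have h2 : ∫ t in Ioi (0 : ℝ), (t : ℂ) ^ n * Complex.exp (-(b : ℂ) * t) =
      ((∫ t in Ioi (0 : ℝ), t ^ n * Real.exp (-(b * t)) : ℝ) : ℂ) := by
    rw [← integral_complex_ofReal]
    refine integral_congr_ae (Eventually.of_forall fun t => ?_)
    simp only
    push_cast
    ring_nf
  rw [h2] at h
  exact_mod_cast h

section

variable (c : ℕ → ℂ) (hc : ∀ n : ℕ, ‖c n‖ ≤ 4 * 6 ^ n)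

/-- the entire function -/
noncomputable def La (t : ℂ) : ℂ := ∑' n : ℕ, c n / (n.factorial : ℂ) * t ^ n

include hc

theorem term_bound (t : ℂ) (n : ℕ) : ‖c n / (n.factorial : ℂ) * t ^ n‖ ≤ 4 * ((6 * ‖t‖) ^ n / n.factorial) := by
  rw [norm_mul, norm_div, norm_pow, Complex.norm_natCast, mul_pow]
  have h0 : (0 : ℝ) < n.factorial := by exact_mod_cast n.factorial_pos
  have h1 : 4 * (6 ^ n * ‖t‖ ^ n / (n.factorial : ℝ)) = (4 * 6 ^ n) / n.factorial * ‖t‖ ^ n := by ring
  rw [h1]
  exact mul_le_mul_of_nonneg_right (div_le_div_of_nonneg_right (hc n) h0.le) (by positivity)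

omit hc in
theorem bound_summable (r : ℝ) : Summable fun n : ℕ => 4 * ((6 * r) ^ n / (n.factorial : ℝ)) :=
  (Real.summable_pow_div_factorial (6 * r)).mul_left 4

theorem La_summable (t : ℂ) : Summable (fun n : ℕ => c n / (n.factorial : ℂ) * t ^ n) := by
  refine Summable.of_norm_bounded (bound_summable ‖t‖) (fun n => term_bound c hc t n)

theorem La_norm (t : ℂ) : ‖La c t‖ ≤ 4 * Real.exp (6 * ‖t‖) := by
  unfold La
  refine tsum_of_norm_bounded ?_ (fun n => term_bound c hc t n)
  have h := NormedSpace.expSeries_div_hasSum_exp (𝔸 := ℝ) (6 * ‖t‖)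
  rw [← Real.exp_eq_exp_ℝ] at h
  exact h.mul_left 4

theorem La_cont : Continuous (La c) := by
  rw [continuous_iff_continuousAt]
  intro t
  have h1 : ContinuousOn (La c) (Metric.ball 0 (‖t‖ + 1)) := by
    refine continuousOn_tsum (u := fun n : ℕ => 4 * ((6 * (‖t‖ + 1)) ^ n / (n.factorial : ℝ)))
      (fun n => by fun_prop) (bound_summable (‖t‖ + 1)) (fun n s hs => ?_)
    refine (term_bound c hc s n).trans ?_
    have : ‖s‖ ≤ ‖t‖ + 1 := by
      have := Metric.mem_ball.1 hs
      rw [dist_zero_right] at this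
      exact this.le
    gcongr
  exact h1.continuousAt (Metric.isOpen_ball.mem_nhds (by simp))

/-- the Laplace transform of `La` -/
theorem La_laplace (φ : ℂ → ℂ) (hφ : ∀ s : ℂ, ‖s‖ < 1 / 6 → HasSum (fun n : ℕ => c n * s ^ n) (φ s))
    {w : ℂ} (hw : 6 < w.re) :
    ∫ t in Ioi (0 : ℝ), La c t * Complex.exp (-w * t) = φ (1 / w) / w := by
  have hw0 : w ≠ 0 := by intro h; rw [h] at hw; simp at hw; linarith
  have hwr : 0 < w.re := by linarith
  have hF : ∀ n : ℕ, Integrable (fun t : ℝ => c n / (n.factorial : ℂ) * (t : ℂ) ^ n * Complex.exp (-w * t))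
      (volume.restrict (Ioi 0)) := by
    intro n
    have := (cpow_exp_int n hwr).const_mul (c n / (n.factorial : ℂ))
    refine this.congr (Eventually.of_forall fun t => ?_)
    simp only
    ring
  have hFn : ∀ n : ℕ, ∫ t in Ioi (0 : ℝ), ‖c n / (n.factorial : ℂ) * (t : ℂ) ^ n * Complex.exp (-w * t)‖ =
      ‖c n‖ / w.re ^ (n + 1) := by
    intro n
    have h1 : ∫ t in Ioi (0 : ℝ), ‖c n / (n.factorial : ℂ) * (t : ℂ) ^ n * Complex.exp (-w * t)‖ =
        ∫ t in Ioi (0 : ℝ), (‖c n‖ / n.factorial) * (t ^ n * Real.exp (-(w.re * t))) := by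
      refine setIntegral_congr_fun measurableSet_Ioi (fun t ht => ?_)
      change ‖_‖ = _
      rw [mul_assoc, norm_mul, cpow_exp_norm n w (le_of_lt ht), norm_div, Complex.norm_natCast]
    rw [h1, integral_const_mul, pow_exp_integral n hwr]
    have h0 : (n.factorial : ℝ) ≠ 0 := by exact_mod_cast n.factorial_ne_zero
    field_simp
  have hsum : Summable fun n : ℕ => ∫ t in Ioi (0 : ℝ), ‖c n / (n.factorial : ℂ) * (t : ℂ) ^ n * Complex.exp (-w * t)‖ := by
    simp only [hFn]
    have hg : Summable fun n : ℕ => (4 / w.re) * (6 / w.re) ^ n :=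
      (summable_geometric_of_lt_one (by positivity) ((div_lt_one hwr).2 hw)).mul_left _
    refine Summable.of_nonneg_of_le (fun n => by positivity) (fun n => ?_) hg
    rw [div_pow, div_mul_div_comm, pow_succ' w.re]
    exact div_le_div_of_nonneg_right (hc n) (by positivity)
  have h2 := hasSum_integral_of_summable_integral_norm hF hsum
  have h3 : ∫ t in Ioi (0 : ℝ), La c t * Complex.exp (-w * t) =
      ∫ t in Ioi (0 : ℝ), ∑' n : ℕ, c n / (n.factorial : ℂ) * (t : ℂ) ^ n * Complex.exp (-w * t) := by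
    refine setIntegral_congr_fun measurableSet_Ioi (fun t _ => ?_)
    change La c t * _ = _
    unfold La
    rw [tsum_mul_right]
  rw [h3]
  have hn : ‖1 / w‖ < 1 / 6 := by
    rw [norm_div, norm_one]
    have : w.re ≤ ‖w‖ := Complex.re_le_norm w
    exact one_div_lt_one_div_of_lt (by norm_num) (by linarith)
  have h4 := (hφ (1 / w) hn).div_const w
  refine h2.unique ?_
  refine h4.congr_fun ?_
  intro n
  have h5 : ∫ t in Ioi (0 : ℝ), c n / (n.factorial : ℂ) * (t : ℂ) ^ n * Complex.exp (-w * t) =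
      ∫ t in Ioi (0 : ℝ), c n / (n.factorial : ℂ) * ((t : ℂ) ^ n * Complex.exp (-w * t)) := by
    exact setIntegral_congr_fun measurableSet_Ioi (fun t _ => mul_assoc _ _ _)
  rw [h5, integral_const_mul, cpow_exp_integral n hwr]
  have h0 : (n.factorial : ℂ) ≠ 0 := by exact_mod_cast n.factorial_ne_zero
  rw [one_div_pow]
  field_simp
  ring

end

end Pool.Agent.Q239.MQ.BR
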