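import Pool.Agent.Q268.MQ.Stm
import Pool.Agent.Q239.MQ.BORA

set_option autoImplicit false

/-! Project MQ, job BOR: Borel summation from the Tauberian lemma. -/

namespace Pool.Agent.Q239.MQ.BR

open Filter Topology MeasureTheory Set Pool.Agent.Q268.MQ

theorem norm_one_add_ge_one {v : ℂ} (hv : 0 ≤ v.re) : 1 ≤ ‖1 + v‖ := by
  have h1 := Complex.re_le_norm (1 + v)
  simp only [Complex.add_re, Complex.one_re] at h1
  linarith

theorem norm_one_add_ge {v : ℂ} (hv : 0 ≤ v.re) : ‖v‖ ≤ ‖1 + v‖ := by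
  have h1 : ‖v‖ ^ 2 ≤ ‖1 + v‖ ^ 2 := by
    rw [← Complex.normSq_eq_norm_sq, ← Complex.normSq_eq_norm_sq, Complex.normSq_apply, Complex.normSq_apply]
    simp only [Complex.add_re, Complex.one_re, Complex.add_im, Complex.one_im, zero_add]
    nlinarith
  exact le_of_sq_le_sq h1 (norm_nonneg _)

theorem one_add_ne {v : ℂ} (hv : 0 ≤ v.re) : (1 + v) ≠ 0 := by
  intro h
  have := norm_one_add_ge_one hv
  rw [h, norm_zero] at this
  linarith

theorem sub_half (v : ℂ) (hv : (1 + v) ≠ 0) : 1 / (1 + v) - 1 / 2 = (1 - v) / (2 * (1 + v)) := by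
  field_simp
  ring

theorem map_ball {v : ℂ} (hv : 0 < v.re) : 1 / (1 + v) ∈ Metric.ball (1 / 2 : ℂ) (1 / 2) := by
  have h0 := one_add_ne hv.le
  rw [Metric.mem_ball, dist_eq_norm, sub_half v h0, norm_div, norm_mul, Complex.norm_ofNat]
  have h1 : ‖1 - v‖ < ‖1 + v‖ := by
    have h2 : ‖1 - v‖ ^ 2 < ‖1 + v‖ ^ 2 := by
      rw [← Complex.normSq_eq_norm_sq, ← Complex.normSq_eq_norm_sq, Complex.normSq_apply, Complex.normSq_apply]
      simp only [Complex.add_re, Complex.one_re, Complex.add_im, Complex.one_im, zero_add, Complex.sub_re,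
        Complex.sub_im]
      nlinarith
    exact lt_of_pow_lt_pow_left₀ 2 (norm_nonneg _) h2
  have h3 : 0 < ‖1 + v‖ := norm_pos_iff.2 h0
  rw [div_lt_div_iff₀ (by positivity) (by norm_num)]
  linarith

theorem map_cd {v : ℂ} (hv : 0 ≤ v.re) : 1 / (1 + v) ∈ cd := by
  have h0 := one_add_ne hv
  change ‖1 / (1 + v) - 1 / 2‖ ≤ 1 / 2
  rw [sub_half v h0, norm_div, norm_mul, Complex.norm_ofNat]
  have h1 : ‖1 - v‖ ≤ ‖1 + v‖ := by
    have h2 : ‖1 - v‖ ^ 2 ≤ ‖1 + v‖ ^ 2 := by
      rw [← Complex.normSq_eq_norm_sq, ← Complex.normSq_eq_norm_sq, Complex.normSq_apply, Complex.normSq_apply]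
      simp only [Complex.add_re, Complex.one_re, Complex.add_im, Complex.one_im, zero_add, Complex.sub_re,
        Complex.sub_im]
      nlinarith
    exact le_of_sq_le_sq h2 (norm_nonneg _)
  have h3 : 0 < ‖1 + v‖ := norm_pos_iff.2 h0
  rw [div_le_div_iff₀ (by positivity) (by norm_num)]
  linarith

/-- **job BOR** -/
theorem t_BOR (hT : S_TAUB) : S_BOR := by
  intro φ c hc hφ hφd hφc hhol
  refine ⟨fun t => La_summable c hc t, ?_⟩
  obtain ⟨C0, α, hα, hC0⟩ := hhol
  set C1 : ℝ := max C0 0 with hC1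
  have hC1' : 0 ≤ C1 := le_max_right _ _
  have hhol1 : ∀ s ∈ cd, ‖φ s - φ 1‖ ≤ C1 * ‖s - 1‖ ^ α := fun s hs =>
    (hC0 s hs).trans (mul_le_mul_of_nonneg_right (le_max_left _ _) (by positivity))
  have hLc : Continuous fun t : ℝ => La c (t : ℂ) := (La_cont c hc).comp Complex.continuous_ofReal
  set f : ℝ → ℂ := fun t => (La c (t : ℂ) - φ 1) * Complex.exp (-(t : ℂ)) with hf
  have hfc : Continuous f := by
    have h1 : Continuous fun t : ℝ => Complex.exp (-(t : ℂ)) := by fun_prop
    exact (hLc.sub continuous_const).mul h1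
  set G : ℝ → ℂ := fun T => ∫ t in (0 : ℝ)..T, f t with hG
  have hGd : ∀ T : ℝ, HasDerivAt G (f T) T := fun T => hfc.integral_hasStrictDerivAt 0 T |>.hasDerivAt
  have hGc : Continuous G := continuous_iff_continuousAt.2 fun T => (hGd T).continuousAt
  have hG0 : G 0 = 0 := by simp [hG]
  set C2 : ℝ := 4 + ‖φ 1‖ with hC2
  have hC2' : 0 ≤ C2 := by positivity
  have hfb : ∀ t : ℝ, 0 ≤ t → ‖f t‖ ≤ C2 * Real.exp (5 * t) := by
    intro t ht
    rw [hf]
    simp only
    rw [norm_mul]
    have h1 : ‖Complex.exp (-(t : ℂ))‖ = Real.exp (-t) := by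
      rw [Complex.norm_exp]; simp
    have h2 := La_norm c hc (t : ℂ)
    rw [Complex.norm_real, Real.norm_eq_abs, abs_of_nonneg ht] at h2
    have h3 : ‖La c (t : ℂ) - φ 1‖ ≤ 4 * Real.exp (6 * t) + ‖φ 1‖ := (norm_sub_le _ _).trans (by linarith)
    have h4 : (1 : ℝ) ≤ Real.exp (6 * t) := Real.one_le_exp (by linarith)
    have h5 : 4 * Real.exp (6 * t) + ‖φ 1‖ ≤ C2 * Real.exp (6 * t) := by
      rw [hC2]
      nlinarith [norm_nonneg (φ 1)]
    rw [h1]
    calc ‖La c (t : ℂ) - φ 1‖ * Real.exp (-t) ≤ (C2 * Real.exp (6 * t)) * Real.exp (-t) :=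
          mul_le_mul_of_nonneg_right (h3.trans h5) (Real.exp_pos _).le
      _ = C2 * Real.exp (5 * t) := by
          rw [mul_assoc, ← Real.exp_add]; congr 2; ring
  have hGb : ∀ T : ℝ, 0 ≤ T → ‖G T‖ ≤ C2 * Real.exp (6 * T) := by
    intro T hT0
    have h1 : ‖G T‖ ≤ (C2 * Real.exp (5 * T)) * |T - 0| := by
      refine intervalIntegral.norm_integral_le_of_norm_le_const (fun t ht => ?_)
      rw [uIoc_of_le hT0] at ht
      refine (hfb t ht.1.le).trans ?_
      refine mul_le_mul_of_nonneg_left (Real.exp_le_exp.2 (by linarith [ht.2])) hC2'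
    rw [sub_zero, abs_of_nonneg hT0] at h1
    refine h1.trans ?_
    have h2 : T ≤ Real.exp T := by linarith [Real.add_one_le_exp T]
    have h3 : Real.exp (6 * T) = Real.exp (5 * T) * Real.exp T := by
      rw [← Real.exp_add]; congr 1; ring
    rw [h3, ← mul_assoc]
    exact mul_le_mul_of_nonneg_left h2 (by positivity)
  set H : ℂ → ℂ := fun v => (φ (1 / (1 + v)) - φ 1) / ((1 + v) * v) with hH
  have hlap : ∀ v : ℂ, 6 < v.re → H v = ∫ T in Ioi (0 : ℝ), Complex.exp (-v * T) * G T := by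
    intro v hv
    have hv0 : v ≠ 0 := by intro h; rw [h] at hv; simp at hv; linarith
    have hw : 6 < (1 + v).re := by simp; linarith
    have hw0 : (1 + v) ≠ 0 := one_add_ne (by linarith)
    have hL := La_laplace c hc φ hφ hw
    have hcst := cpow_exp_integral 0 (w := 1 + v) (by linarith)
    simp only [pow_zero, one_mul, Nat.factorial_zero, Nat.cast_one, zero_add, pow_one] at hcst
    -- integrability of the pieces
    have hi1 : IntegrableOn (fun T : ℝ => Complex.exp (-v * T) * G T) (Ioi 0) := by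
      have hb := (pow_exp_int 0 (b := v.re - 6) (by linarith)).const_mul C2
      refine Integrable.mono' hb ((by fun_prop : Continuous fun T : ℝ => Complex.exp (-v * T)).mul
        hGc).aestronglyMeasurable ?_
      refine (ae_restrict_iff' measurableSet_Ioi).2 (Eventually.of_forall fun t ht => ?_)
      rw [norm_mul, cexp_norm]
      calc Real.exp (-(v.re * t)) * ‖G t‖ ≤ Real.exp (-(v.re * t)) * (C2 * Real.exp (6 * t)) :=
            mul_le_mul_of_nonneg_left (hGb t (le_of_lt ht)) (Real.exp_pos _).le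
        _ = C2 * (t ^ 0 * Real.exp (-((v.re - 6) * t))) := by
            rw [pow_zero, one_mul, mul_left_comm, ← Real.exp_add]; congr 2; ring
    have hi2 : IntegrableOn (fun T : ℝ => Complex.exp (-v * T) * f T) (Ioi 0) := by
      have hb := (pow_exp_int 0 (b := v.re - 6) (by linarith)).const_mul C2
      refine Integrable.mono' hb ((by fun_prop : Continuous fun T : ℝ => Complex.exp (-v * T)).mul
        hfc).aestronglyMeasurable ?_
      refine (ae_restrict_iff' measurableSet_Ioi).2 (Eventually.of_forall fun t ht => ?_)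
      have ht0 : 0 < t := ht
      rw [norm_mul, cexp_norm]
      calc Real.exp (-(v.re * t)) * ‖f t‖ ≤ Real.exp (-(v.re * t)) * (C2 * Real.exp (5 * t)) :=
            mul_le_mul_of_nonneg_left (hfb t (le_of_lt ht)) (Real.exp_pos _).le
        _ = C2 * Real.exp (-((v.re - 5) * t)) := by
            rw [mul_left_comm, ← Real.exp_add]; congr 2; ring
        _ ≤ C2 * (t ^ 0 * Real.exp (-((v.re - 6) * t))) := by
            rw [pow_zero, one_mul]
            refine mul_le_mul_of_nonneg_left (Real.exp_le_exp.2 ?_) hC2'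
            nlinarith
    have hd : ∀ t ∈ Ici (0 : ℝ), HasDerivAt (fun t : ℝ => Complex.exp (-v * t) * G t)
        (Complex.exp (-v * t) * f t - v * (Complex.exp (-v * t) * G t)) t := by
      intro t _
      have h1 : HasDerivAt (fun t : ℝ => (t : ℂ)) 1 t := Complex.ofRealCLM.hasDerivAt
      have h3 := (h1.const_mul (-v)).cexp
      refine (h3.mul (hGd t)).congr_deriv ?_
      ring
    have ht : Tendsto (fun t : ℝ => Complex.exp (-v * t) * G t) atTop (𝓝 0) := by
      rw [tendsto_zero_iff_norm_tendsto_zero]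
      have h1 := (pow_exp_tend 0 (b := v.re - 6) (by linarith)).const_mul C2
      rw [mul_zero] at h1
      refine squeeze_zero' (Eventually.of_forall fun t => norm_nonneg _) ?_ h1
      filter_upwards [eventually_ge_atTop 0] with t ht
      rw [norm_mul, cexp_norm]
      calc Real.exp (-(v.re * t)) * ‖G t‖ ≤ Real.exp (-(v.re * t)) * (C2 * Real.exp (6 * t)) :=
            mul_le_mul_of_nonneg_left (hGb t ht) (Real.exp_pos _).le
        _ = C2 * (t ^ 0 * Real.exp (-((v.re - 6) * t))) := by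
            rw [pow_zero, one_mul, mul_left_comm, ← Real.exp_add]; congr 2; ring
    have hI := integral_Ioi_of_hasDerivAt_of_tendsto' hd (hi2.sub (hi1.const_mul v)) ht
    rw [integral_sub hi2 (hi1.const_mul v), integral_const_mul, hG0] at hI
    simp only [mul_zero, sub_zero] at hI
    have hI2 : v * ∫ T in Ioi (0 : ℝ), Complex.exp (-v * T) * G T =
        ∫ T in Ioi (0 : ℝ), Complex.exp (-v * T) * f T := (sub_eq_zero.1 hI).symm
    -- the integral of `exp (-v T) f T`
    have hi3 : IntegrableOn (fun t : ℝ => φ 1 * Complex.exp (-(1 + v) * t)) (Ioi 0) := by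
      have := (cpow_exp_int 0 (w := 1 + v) (by linarith)).const_mul (φ 1)
      refine this.congr (Eventually.of_forall fun t => ?_)
      simp only [pow_zero, one_mul]
    have hfeq : ∀ t : ℝ, Complex.exp (-v * t) * f t = La c t * Complex.exp (-(1 + v) * t) -
        φ 1 * Complex.exp (-(1 + v) * t) := by
      intro t
      have : Complex.exp (-(1 + v) * t) = Complex.exp (-v * t) * Complex.exp (-(t : ℂ)) := by
        rw [← Complex.exp_add]; congr 1; ring
      rw [this, hf]
      simp only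
      ring
    have hi4 : IntegrableOn (fun t : ℝ => La c t * Complex.exp (-(1 + v) * t)) (Ioi 0) := by
      have := hi2.add hi3
      refine this.congr (Eventually.of_forall fun t => ?_)
      simp only [Pi.add_apply]
      rw [hfeq t]; ring
    have hI3 : ∫ T in Ioi (0 : ℝ), Complex.exp (-v * T) * f T = (φ (1 / (1 + v)) - φ 1) / (1 + v) := by
      have h1 : ∫ T in Ioi (0 : ℝ), Complex.exp (-v * T) * f T = ∫ t in Ioi (0 : ℝ),
          (La c t * Complex.exp (-(1 + v) * t) - φ 1 * Complex.exp (-(1 + v) * t)) :=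
        setIntegral_congr_fun measurableSet_Ioi (fun t _ => hfeq t)
      rw [h1, integral_sub hi4 hi3, hL, integral_const_mul, hcst]
      ring
    rw [hI3] at hI2
    rw [hH]
    simp only
    rw [← div_div, ← hI2]
    field_simp
  have hpos : ∀ v : ℂ, 0 ≤ v.re → ‖1 / (1 + v) - 1‖ = ‖v‖ / ‖1 + v‖ := by
    intro v hv
    have h0 := one_add_ne hv
    have : 1 / (1 + v) - 1 = -v / (1 + v) := by field_simp; ring
    rw [this, norm_div, norm_neg]
  have hHd : DifferentiableOn ℂ H {v | 0 < v.re} := by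
    have hm : DifferentiableOn ℂ (fun v : ℂ => 1 / (1 + v)) {v | 0 < v.re} := by
      refine DifferentiableOn.div (differentiableOn_const _) (by fun_prop) (fun v hv => ?_)
      exact one_add_ne (le_of_lt hv)
    have h1 : DifferentiableOn ℂ (fun v : ℂ => φ (1 / (1 + v))) {v | 0 < v.re} :=
      hφd.comp hm (fun v hv => map_ball hv)
    refine DifferentiableOn.div (h1.sub (differentiableOn_const _)) (by fun_prop) (fun v hv => ?_)
    have hv' : 0 < v.re := hv
    refine mul_ne_zero (one_add_ne hv'.le) ?_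
    intro h; rw [h] at hv'; simp at hv'
  have hHc : ContinuousOn H ({v | 0 ≤ v.re} \ {0}) := by
    have hm : ContinuousOn (fun v : ℂ => 1 / (1 + v)) ({v | 0 ≤ v.re} \ {0}) := by
      refine ContinuousOn.div continuousOn_const (by fun_prop) (fun v hv => ?_)
      exact one_add_ne hv.1
    have h1 : ContinuousOn (fun v : ℂ => φ (1 / (1 + v))) ({v | 0 ≤ v.re} \ {0}) :=
      hφc.comp hm (fun v hv => map_cd hv.1)
    refine ContinuousOn.div (h1.sub continuousOn_const) (by fun_prop) (fun v hv => ?_)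
    exact mul_ne_zero (one_add_ne hv.1) hv.2
  have hH1 : ∀ v : ℂ, 0 ≤ v.re → v ≠ 0 → ‖v‖ ≤ 1 → ‖H v‖ ≤ (C1 + C2) * ‖v‖ ^ (α - 1) := by
    intro v hv hv0 _
    have hvp : 0 < ‖v‖ := norm_pos_iff.2 hv0
    have h1 := hhol1 _ (map_cd hv)
    rw [hpos v hv] at h1
    have h2 := norm_one_add_ge_one hv
    have h3 : (‖v‖ / ‖1 + v‖) ^ α ≤ ‖v‖ ^ α :=
      Real.rpow_le_rpow (by positivity) (div_le_self hvp.le h2) hα.le
    rw [hH]
    simp only
    rw [norm_div, norm_mul, Real.rpow_sub_one hvp.ne', div_le_iff₀ (by positivity)]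
    have h4 : C1 * ‖v‖ ^ α ≤ (C1 + C2) * (‖v‖ ^ α / ‖v‖) * (‖1 + v‖ * ‖v‖) := by
      have : (C1 + C2) * (‖v‖ ^ α / ‖v‖) * (‖1 + v‖ * ‖v‖) = (C1 + C2) * ‖v‖ ^ α * ‖1 + v‖ := by
        field_simp
      rw [this]
      have h5 : 0 ≤ ‖v‖ ^ α := by positivity
      nlinarith [mul_nonneg hC1' h5, mul_nonneg hC2' h5, mul_nonneg (add_nonneg hC1' hC2') h5]
    exact (h1.trans (mul_le_mul_of_nonneg_left h3 hC1')).trans h4
  have hH2 : ∀ v : ℂ, 0 ≤ v.re → 1 ≤ ‖v‖ → ‖H v‖ ≤ (C1 + C2) / ‖v‖ ^ 2 := by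
    intro v hv hv1
    have hvp : 0 < ‖v‖ := by linarith
    have h1 := hhol1 _ (map_cd hv)
    rw [hpos v hv] at h1
    have h2 := norm_one_add_ge hv
    have h3 : (‖v‖ / ‖1 + v‖) ^ α ≤ 1 :=
      Real.rpow_le_one (by positivity) (div_le_one_of_le₀ h2 (norm_nonneg _)) hα.le
    rw [hH]
    simp only
    rw [norm_div, norm_mul]
    have h4 : ‖φ (1 / (1 + v)) - φ 1‖ ≤ C1 + C2 := by nlinarith
    have h5 : ‖v‖ ^ 2 ≤ ‖1 + v‖ * ‖v‖ := by nlinarith
    exact div_le_div₀ (by positivity) h4 (by positivity) h5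
  have hGlim := hT G H (C1 + C2) 6 α (by norm_num) hα hGc.continuousOn hG0
    (fun T hT0 => (hGb T hT0).trans (mul_le_mul_of_nonneg_right (by linarith) (Real.exp_pos _).le))
    hlap hHd hHc hH1 hH2
  -- conclusion
  have hfin : ∀ T : ℝ, ∫ t in (0 : ℝ)..T, (∑' n : ℕ, c n / (n.factorial : ℂ) * (t : ℂ) ^ n) *
      Complex.exp (-(t : ℂ)) = G T + φ 1 * (1 - Complex.exp (-(T : ℂ))) := by
    intro T
    have h1 : ∫ t in (0 : ℝ)..T, φ 1 * Complex.exp (-(t : ℂ)) = φ 1 * (1 - Complex.exp (-(T : ℂ))) := by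
      rw [intervalIntegral.integral_const_mul]
      congr 1
      have h2 : ∀ x ∈ uIcc (0 : ℝ) T, HasDerivAt (fun t : ℝ => -Complex.exp (-(t : ℂ))) (Complex.exp (-(x : ℂ))) x := by
        intro x _
        have h3 : HasDerivAt (fun t : ℝ => (t : ℂ)) 1 x := Complex.ofRealCLM.hasDerivAt
        refine (h3.neg.cexp.neg).congr_deriv ?_
        simp only [Pi.neg_apply]
        ring
      have h4 : IntervalIntegrable (fun t : ℝ => Complex.exp (-(t : ℂ))) volume 0 T :=
        (by fun_prop : Continuous fun t : ℝ => Complex.exp (-(t : ℂ))).intervalIntegrable 0 T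
      rw [intervalIntegral.integral_eq_sub_of_hasDerivAt h2 h4]
      simp
      ring
    rw [← h1, hG]
    simp only
    rw [← intervalIntegral.integral_add (hfc.intervalIntegrable 0 T)]
    · refine intervalIntegral.integral_congr (fun t _ => ?_)
      simp only [hf, La]
      ring
    · exact (by fun_prop : Continuous fun t : ℝ => φ 1 * Complex.exp (-(t : ℂ))).intervalIntegrable 0 T
  have hexp : Tendsto (fun T : ℝ => Complex.exp (-(T : ℂ))) atTop (𝓝 0) := by
    rw [tendsto_zero_iff_norm_tendsto_zero]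
    refine (Real.tendsto_exp_neg_atTop_nhds_zero).congr (fun T => ?_)
    rw [Complex.norm_exp]
    simp
  have hlim := hGlim.add ((hexp.const_sub 1).const_mul (φ 1))
  rw [sub_zero, mul_one, zero_add] at hlim
  exact hlim.congr (fun T => (hfin T).symm)

end Pool.Agent.Q239.MQ.BR
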