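import Pool.Agent.Q268.MQ.Stm

set_option autoImplicit false

/-! Project MQ, job FIN: the second moment is the limit. -/

namespace Pool.Agent.Q239.MQ

open Pool.Agent.Q268.MQ
open Set MeasureTheory Filter Topology

theorem one_mem_cd : (1 : ℂ) ∈ cd := by
  change ‖(1 : ℂ) - 1 / 2‖ ≤ 1 / 2
  have : (1 : ℂ) - 1 / 2 = ((1 / 2 : ℝ) : ℂ) := by
    push_cast
    ring
  rw [this, Complex.norm_real]
  norm_num

theorem bb_one (m : ℕ) : bb m 1 = ((1 / (m : ℝ) : ℝ) : ℂ) := by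
  unfold bb sg
  simp

theorem real_mem_W {x : ℝ} (hx : x ∈ Icc (0 : ℝ) 1) : (x : ℂ) ∈ W 1 := by
  refine ⟨?_, fun m hm => ?_⟩
  · rw [Complex.norm_real, Real.norm_eq_abs, abs_of_nonneg hx.1]
    linarith [hx.2]
  · rw [bb_one, ← Complex.ofReal_mul, Complex.ofReal_re]
    have : 0 ≤ 1 / (m : ℝ) * x := mul_nonneg (by positivity) hx.1
    linarith

theorem Am_real (x : ℝ) : Am 1 (x : ℂ) = ((x / (1 + x) : ℝ) : ℂ) := by
  unfold Am
  push_cast
  rw [one_mul]

theorem Bm_real (x : ℝ) : Bm 1 (x : ℂ) = ((1 / (1 + x) : ℝ) : ℂ) := by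
  unfold Bm
  push_cast
  rw [one_mul]

theorem a_mem {x : ℝ} (hx : x ∈ Icc (0 : ℝ) 1) : x / (1 + x) ∈ Icc (0 : ℝ) 1 := by
  refine ⟨div_nonneg hx.1 (by linarith [hx.1]), ?_⟩
  rw [div_le_one (by linarith [hx.1])]
  linarith

theorem b_mem {x : ℝ} (hx : x ∈ Icc (0 : ℝ) 1) : 1 / (1 + x) ∈ Icc (0 : ℝ) 1 := by
  refine ⟨div_nonneg zero_le_one (by linarith [hx.1]), ?_⟩
  rw [div_le_one (by linarith [hx.1])]
  linarith [hx.1]

theorem Am_iter {x : ℝ} (hx : x ∈ Icc (0 : ℝ) 1) (j : ℕ) : (Am 1)^[j] (x : ℂ) ∈ W 1 := by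
  have : ∀ j : ℕ, ∃ y ∈ Icc (0 : ℝ) 1, (Am 1)^[j] (x : ℂ) = (y : ℂ) := by
    intro j
    induction j with
    | zero => exact ⟨x, hx, rfl⟩
    | succ j ih =>
      obtain ⟨y, hy, h⟩ := ih
      refine ⟨y / (1 + y), a_mem hy, ?_⟩
      rw [Function.iterate_succ_apply', h, Am_real]
  obtain ⟨y, hy, h⟩ := this j
  rw [h]
  exact real_mem_W hy

theorem gN_step (N : ℕ) (x : ℝ) : gN 2 1 (N + 1) (x : ℂ) =
    (gN 2 1 N ((x / (1 + x) : ℝ) : ℂ) + gN 2 1 N ((1 / (1 + x) : ℝ) : ℂ)) / 2 := by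
  unfold gN
  rw [Function.iterate_succ_apply']
  change (_ + _) / 2 = _
  rw [Am_real, Bm_real]

theorem gN_cont (N : ℕ) : ContinuousOn (fun x : ℝ => gN 2 1 N (x : ℂ)) (Icc 0 1) := by
  induction N with
  | zero =>
    change ContinuousOn (fun x : ℝ => (x : ℂ) ^ 2) (Icc 0 1)
    fun_prop
  | succ N ih =>
    have h1 : (fun x : ℝ => gN 2 1 (N + 1) (x : ℂ)) = fun x : ℝ =>
        ((fun x : ℝ => gN 2 1 N (x : ℂ)) (x / (1 + x)) +
          (fun x : ℝ => gN 2 1 N (x : ℂ)) (1 / (1 + x))) / 2 := by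
      funext x
      exact gN_step N x
    rw [h1]
    have h2 : ContinuousOn (fun x : ℝ => x / (1 + x)) (Icc 0 1) := by
      refine continuousOn_id.div (by fun_prop) fun x hx => ?_
      have := hx.1
      positivity
    have h3 : ContinuousOn (fun x : ℝ => 1 / (1 + x)) (Icc 0 1) := by
      refine continuousOn_const.div (by fun_prop) fun x hx => ?_
      have := hx.1
      positivity
    exact ((ih.comp h2 fun x hx => a_mem hx).add (ih.comp h3 fun x hx => b_mem hx)).div_const 2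

theorem t_FIN (_h1 : S_EE) (h2 : S_CON) (h3 : S_PHI) (h4 : S_INV) : S_FIN := by
  intro F hF0 hF1 hF2 hFc
  obtain ⟨hu, hc, hinv⟩ := h4 F hF0 hF1 hF2 hFc
  have : IsProbabilityMeasure F.measure := ⟨hu⟩
  have hI : F.measure (Icc 0 1) = 1 := by
    rw [← prob_compl_eq_zero_iff measurableSet_Icc]
    exact hc
  have hJ : ∀ N : ℕ, ∫ x in Icc (0 : ℝ) 1, gN 2 1 N (x : ℂ) ∂F.measure =
      ((∫ x in Icc (0 : ℝ) 1, x ^ 2 ∂F.measure : ℝ) : ℂ) := by
    intro N
    induction N with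
    | zero =>
      rw [← integral_complex_ofReal]
      refine setIntegral_congr_fun measurableSet_Icc fun x _ => ?_
      change (x : ℂ) ^ 2 = ((x ^ 2 : ℝ) : ℂ)
      push_cast
      rfl
    | succ N ih =>
      rw [← ih, hinv _ (gN_cont N)]
      refine setIntegral_congr_fun measurableSet_Icc fun x _ => ?_
      exact gN_step N x
  obtain ⟨C, q, hC, hq0, hq1, hcon⟩ := h2
  have hlim := h3.1 1 one_mem_cd
  set J : ℂ := ((∫ x in Icc (0 : ℝ) 1, x ^ 2 ∂F.measure : ℝ) : ℂ) with hJdef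
  have hbd : ∀ N : ℕ, ‖gN 2 1 N 0 - J‖ ≤ C * q ^ N := by
    intro N
    have e1 : gN 2 1 N 0 = ∫ x in Icc (0 : ℝ) 1, gN 2 1 N 0 ∂F.measure := by
      rw [setIntegral_const, measureReal_def, hI]
      simp
    have hint : IntegrableOn (fun x : ℝ => gN 2 1 N (x : ℂ)) (Icc 0 1) F.measure :=
      (gN_cont N).integrableOn_compact isCompact_Icc
    rw [e1, ← hJ N, norm_sub_rev, ← integral_sub hint (integrable_const _)]
    have h5 := norm_setIntegral_le_of_norm_le_const (μ := F.measure) (s := Icc (0 : ℝ) 1)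
      (f := fun x : ℝ => gN 2 1 N (x : ℂ) - gN 2 1 N 0) (C := C * q ^ N)
      (by rw [hI]; exact ENNReal.one_lt_top)
      (fun x hx => hcon 1 one_mem_cd x (real_mem_W hx) (Am_iter hx) N)
    rw [measureReal_def, hI, ENNReal.toReal_one, mul_one] at h5
    exact h5
  have h6 : Tendsto (fun N : ℕ => C * q ^ N) atTop (𝓝 0) := by
    have := (tendsto_pow_atTop_nhds_zero_of_lt_one hq0.le hq1).const_mul C
    rwa [mul_zero] at this
  have h7 : Tendsto (fun N : ℕ => gN 2 1 N 0) atTop (𝓝 J) := by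
    rw [tendsto_iff_norm_sub_tendsto_zero]
    exact squeeze_zero (fun _ => norm_nonneg _) hbd h6
  exact tendsto_nhds_unique h7 hlim

end Pool.Agent.Q239.MQ
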