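import Pool.Agent.Q268.MQ.Stm

set_option autoImplicit false

/-! Project MQ, job INV: invariance of the measure. -/

namespace Pool.Agent.Q239.MQ

open Pool.Agent.Q268.MQ
open Set MeasureTheory Filter Topology

section

variable {F : StieltjesFunction ℝ} (hF0 : ∀ x : ℝ, x < 0 → F x = 0)
  (hF1 : ∀ x : ℝ, 0 ≤ x → x ≤ 1 → F x = qm x) (hF2 : ∀ x : ℝ, 1 < x → F x = 1)
  (hFc : Continuous F)

include hF0 in
theorem F_bot : Tendsto F atBot (𝓝 0) := by
  refine tendsto_const_nhds.congr' ?_
  filter_upwards [eventually_lt_atBot (0 : ℝ)] with x hx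
  rw [hF0 x hx]

include hF2 in
theorem F_top : Tendsto F atTop (𝓝 1) := by
  refine tendsto_const_nhds.congr' ?_
  filter_upwards [eventually_gt_atTop (1 : ℝ)] with x hx
  rw [hF2 x hx]

include hF0 hF2 in
theorem F_univ : F.measure univ = 1 := by
  rw [F.measure_univ (F_bot hF0) (F_top hF2), sub_zero, ENNReal.ofReal_one]

include hFc in
theorem F_left (x : ℝ) : Function.leftLim F x = F x :=
  hFc.continuousAt.continuousWithinAt.leftLim_eq

include hFc in
theorem F_Icc (a b : ℝ) : F.measure (Icc a b) = ENNReal.ofReal (F b - F a) := by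
  rw [F.measure_Icc, F_left hFc]

include hF0 in
theorem F_Iic (a : ℝ) : F.measure (Iic a) = ENNReal.ofReal (F a) := by
  rw [F.measure_Iic (F_bot hF0), sub_zero]

theorem t_INV (h : S_QM) : S_INV := by
  intro F hF0 hF1 hF2 hFc
  have hu := F_univ hF0 hF2
  have hI : F.measure (Icc 0 1) = 1 := by
    rw [F_Icc hFc, hF1 1 zero_le_one le_rfl, hF1 0 le_rfl zero_le_one, h.1, h.2.1, sub_zero,
      ENNReal.ofReal_one]
  have : IsProbabilityMeasure F.measure := ⟨hu⟩
  have hc : F.measure (Icc 0 1)ᶜ = 0 := by
    rw [prob_compl_eq_zero_iff measurableSet_Icc]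
    exact hI
  refine ⟨hu, hc, fun f hf => ?_⟩
  have hres : F.measure.restrict (Icc 0 1) = F.measure := by
    apply Measure.restrict_eq_self_of_ae_mem
    rw [ae_iff]
    exact hc
  let a : ℝ → ℝ := fun x => x / (1 + x)
  let b : ℝ → ℝ := fun x => 1 / (1 + x)
  have ha : Measurable a := by
    change Measurable fun x : ℝ => x / (1 + x)
    fun_prop
  have hb : Measurable b := by
    change Measurable fun x : ℝ => 1 / (1 + x)
    fun_prop
  have hsub : ∀ s t : Set ℝ, (∀ x ∈ Icc (0 : ℝ) 1, x ∈ s ↔ x ∈ t) → F.measure s = F.measure t := by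
    intro s t hst
    apply measure_congr
    have h1 : ∀ᵐ x ∂F.measure, x ∈ Icc (0 : ℝ) 1 := by
      rw [ae_iff]
      exact hc
    filter_upwards [h1] with x hx
    exact propext (hst x hx)
  have key : F.measure = (2⁻¹ : ENNReal) • (F.measure.map a + F.measure.map b) := by
    refine Measure.ext_of_Iic _ _ fun t => ?_
    rw [Measure.smul_apply, Measure.add_apply, Measure.map_apply ha measurableSet_Iic,
      Measure.map_apply hb measurableSet_Iic, smul_eq_mul, F_Iic hF0]
    have hhalf : (2⁻¹ : ENNReal) = ENNReal.ofReal (1 / 2) := by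
      rw [one_div, ENNReal.ofReal_inv_of_pos (by norm_num)]
      simp
    rcases lt_or_ge t 0 with ht | ht
    · have e1 : F.measure (a ⁻¹' Iic t) = 0 := by
        rw [hsub _ ∅, measure_empty]
        intro x hx
        simp only [mem_preimage, mem_Iic, mem_empty_iff_false, iff_false, not_le]
        have : 0 ≤ x / (1 + x) := div_nonneg hx.1 (by linarith [hx.1])
        exact lt_of_lt_of_le ht this
      have e2 : F.measure (b ⁻¹' Iic t) = 0 := by
        rw [hsub _ ∅, measure_empty]
        intro x hx
        simp only [mem_preimage, mem_Iic, mem_empty_iff_false, iff_false, not_le]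
        have : 0 ≤ 1 / (1 + x) := div_nonneg zero_le_one (by linarith [hx.1])
        exact lt_of_lt_of_le ht this
      rw [e1, e2, hF0 t ht]
      simp
    · rcases lt_or_ge t (1 / 2) with ht2 | ht2
      · have hT0 : 0 ≤ t / (1 - t) := div_nonneg ht (by linarith)
        have hT1 : t / (1 - t) ≤ 1 := by
          rw [div_le_one (by linarith)]
          linarith
        have e1 : F.measure (a ⁻¹' Iic t) = ENNReal.ofReal (qm (t / (1 - t))) := by
          rw [hsub _ (Iic (t / (1 - t))), F_Iic hF0, hF1 _ hT0 hT1]
          intro x hx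
          simp only [mem_preimage, mem_Iic]
          change x / (1 + x) ≤ t ↔ _
          rw [div_le_iff₀ (by linarith [hx.1]), le_div_iff₀ (by linarith)]
          constructor <;> intro h' <;> linarith
        have e2 : F.measure (b ⁻¹' Iic t) = 0 := by
          rw [hsub _ ∅, measure_empty]
          intro x hx
          simp only [mem_preimage, mem_Iic, mem_empty_iff_false, iff_false, not_le]
          change t < 1 / (1 + x)
          rw [lt_div_iff₀ (by linarith [hx.1])]
          nlinarith [hx.1, hx.2]
        have e3 : (t / (1 - t)) / (1 + t / (1 - t)) = t := by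
          have : (1 - t) ≠ 0 := by linarith
          field_simp
          ring
        have h3 := (h.2.2 _ hT0 hT1).2.2.1
        rw [e3] at h3
        rw [e1, e2, add_zero, hF1 t ht (by linarith), h3, hhalf,
          ← ENNReal.ofReal_mul (by norm_num)]
        congr 1
        ring
      · have e1 : F.measure (a ⁻¹' Iic t) = 1 := by
          rw [hsub _ univ, hu]
          intro x hx
          simp only [mem_preimage, mem_Iic, mem_univ, iff_true]
          change x / (1 + x) ≤ t
          rw [div_le_iff₀ (by linarith [hx.1])]
          nlinarith [hx.1, hx.2]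
        rcases le_or_gt t 1 with ht1 | ht1
        · have ht0 : 0 < t := by linarith
          have hT0 : 0 ≤ 1 / t - 1 := by
            have : 1 ≤ 1 / t := by
              rw [le_div_iff₀ ht0]
              linarith
            linarith
          have hT1 : 1 / t - 1 ≤ 1 := by
            have : 1 / t ≤ 2 := by
              rw [div_le_iff₀ ht0]
              linarith
            linarith
          have e2 : F.measure (b ⁻¹' Iic t) = ENNReal.ofReal (1 - qm (1 / t - 1)) := by
            rw [hsub _ (Icc (1 / t - 1) 1), F_Icc hFc, hF1 _ hT0 hT1,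
              hF1 1 zero_le_one le_rfl, h.2.1]
            intro x hx
            simp only [mem_preimage, mem_Iic, mem_Icc]
            change 1 / (1 + x) ≤ t ↔ _
            rw [div_le_iff₀ (by linarith [hx.1]), sub_le_iff_le_add, div_le_iff₀ ht0]
            constructor
            · intro h'
              exact ⟨by linarith, hx.2⟩
            · intro h'
              linarith [h'.1]
          have e3 : 1 / (1 + (1 / t - 1)) = t := by
            rw [add_sub_cancel, one_div_one_div]
          have h3 := (h.2.2 _ hT0 hT1).2.2.2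
          have h4 := (h.2.2 _ hT0 hT1).2.1
          rw [e3] at h3
          rw [e1, e2, hF1 t ht ht1, h3, hhalf, ← ENNReal.ofReal_one,
            ← ENNReal.ofReal_add zero_le_one (by linarith), ← ENNReal.ofReal_mul (by norm_num)]
          congr 1
          ring
        · have e2 : F.measure (b ⁻¹' Iic t) = 1 := by
            rw [hsub _ univ, hu]
            intro x hx
            simp only [mem_preimage, mem_Iic, mem_univ, iff_true]
            change 1 / (1 + x) ≤ t
            rw [div_le_iff₀ (by linarith [hx.1])]
            nlinarith [hx.1, hx.2]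
          rw [e1, e2, hF2 t ht1, ENNReal.ofReal_one, one_add_one_eq_two]
          rw [ENNReal.inv_mul_cancel (by norm_num) (by norm_num)]
  -- the continuous extension
  let g : ℝ → ℂ := fun x => f (max 0 (min 1 x))
  have hg : Continuous g := by
    refine hf.comp_continuous (continuous_const.max (continuous_const.min continuous_id)) ?_
    intro x
    exact ⟨le_max_left _ _, max_le zero_le_one (min_le_left _ _)⟩
  have hgf : ∀ x ∈ Icc (0 : ℝ) 1, g x = f x := by
    intro x hx
    change f (max 0 (min 1 x)) = f x
    rw [min_eq_right hx.2, max_eq_right hx.1]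
  have hgb : ∃ C, ∀ x, ‖g x‖ ≤ C := by
    obtain ⟨C, hC⟩ := isCompact_Icc.exists_bound_of_continuousOn hf
    exact ⟨C, fun x => hC _ ⟨le_max_left _ _, max_le zero_le_one (min_le_left _ _)⟩⟩
  obtain ⟨C, hC⟩ := hgb
  have hai : Integrable (fun x => g (a x)) F.measure :=
    Integrable.of_bound (hg.measurable.comp ha).aestronglyMeasurable C
      (Eventually.of_forall fun x => hC _)
  have hbi : Integrable (fun x => g (b x)) F.measure :=
    Integrable.of_bound (hg.measurable.comp hb).aestronglyMeasurable C
      (Eventually.of_forall fun x => hC _)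
  have e1 : ∫ x in Icc 0 1, f x ∂F.measure = ∫ x, g x ∂F.measure := by
    conv_rhs => rw [← hres]
    exact setIntegral_congr_fun measurableSet_Icc fun x hx => (hgf x hx).symm
  have e2 : ∫ x in Icc 0 1, (f (x / (1 + x)) + f (1 / (1 + x))) / 2 ∂F.measure =
      ∫ x, (g (a x) + g (b x)) / 2 ∂F.measure := by
    conv_rhs => rw [← hres]
    refine setIntegral_congr_fun measurableSet_Icc fun x hx => ?_
    have h1 : x / (1 + x) ∈ Icc (0 : ℝ) 1 := by
      refine ⟨div_nonneg hx.1 (by linarith [hx.1]), ?_⟩
      rw [div_le_one (by linarith [hx.1])]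
      linarith
    have h2 : 1 / (1 + x) ∈ Icc (0 : ℝ) 1 := by
      refine ⟨div_nonneg zero_le_one (by linarith [hx.1]), ?_⟩
      rw [div_le_one (by linarith [hx.1])]
      linarith [hx.1]
    change _ = (g (x / (1 + x)) + g (1 / (1 + x))) / 2
    rw [hgf _ h1, hgf _ h2]
  rw [e1, e2, integral_div, integral_add hai hbi]
  conv_lhs => rw [key]
  have hgi : ∀ ν : Measure ℝ, IsFiniteMeasure ν → Integrable g ν := fun ν _ =>
    Integrable.of_bound hg.aestronglyMeasurable C (Eventually.of_forall fun x => hC _)
  rw [integral_smul_measure, integral_add_measure (hgi _ inferInstance) (hgi _ inferInstance),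
    integral_map ha.aemeasurable hg.aestronglyMeasurable,
    integral_map hb.aemeasurable hg.aestronglyMeasurable]
  rw [ENNReal.toReal_inv, ENNReal.toReal_ofNat, Complex.real_smul]
  push_cast
  ring

end

end Pool.Agent.Q239.MQ
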