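import Pool.Agent.Q268.MQ.Stm

set_option autoImplicit false

/-! Project MQ, job QM: functional equations of the question mark function. -/

namespace Pool.Agent.Q239.MQ

open Pool.Agent.Q268.MQ
open Finset

theorem gauss_zero : gauss 0 = 0 := by
  unfold gauss
  rw [div_zero, Int.fract_zero]

theorem gauss_iter_zero (k : ℕ) : gauss^[k] 0 = 0 := by
  induction k with
  | zero => rfl
  | succ k ih => rw [Function.iterate_succ_apply, gauss_zero, ih]

theorem gauss_nonneg (x : ℝ) : 0 ≤ gauss x := Int.fract_nonneg _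

theorem gauss_lt (x : ℝ) : gauss x < 1 := Int.fract_lt_one _

theorem gauss_iter_mem {x : ℝ} (h0 : 0 ≤ x) (h1 : x ≤ 1) (k : ℕ) :
    0 ≤ gauss^[k] x ∧ gauss^[k] x ≤ 1 := by
  induction k with
  | zero => exact ⟨h0, h1⟩
  | succ k ih =>
    rw [Function.iterate_succ_apply']
    exact ⟨gauss_nonneg _, (gauss_lt _).le⟩

/-- the terms -/
noncomputable def tm (x : ℝ) (k : ℕ) : ℝ :=
  if gauss^[k] x = 0 then 0
    else (-1) ^ k * (2 : ℝ) ^ (1 - (∑ i ∈ range (k + 1), (pq x i : ℤ)) : ℤ)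

theorem qm_eq (x : ℝ) : qm x = ∑' k, tm x k := rfl

theorem pq_succ (x : ℝ) (k : ℕ) : pq x (k + 1) = pq (gauss x) k := by
  unfold pq
  rw [Function.iterate_succ_apply]

theorem pq_pos {x : ℝ} (h0 : 0 ≤ x) (h1 : x ≤ 1) (k : ℕ) (hk : gauss^[k] x ≠ 0) : 1 ≤ pq x k := by
  obtain ⟨h2, h3⟩ := gauss_iter_mem h0 h1 k
  have h4 : 0 < gauss^[k] x := lt_of_le_of_ne h2 (Ne.symm hk)
  unfold pq
  rw [Nat.one_le_floor_iff]
  rw [le_div_iff₀ h4]
  linarith

theorem iter_ne {x : ℝ} (k : ℕ) (hk : gauss^[k] x ≠ 0) (i : ℕ) (hi : i ≤ k) : gauss^[i] x ≠ 0 := by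
  intro h
  apply hk
  obtain ⟨j, rfl⟩ := Nat.exists_eq_add_of_le hi
  rw [add_comm, Function.iterate_add_apply, h, gauss_iter_zero]

theorem tm_norm {x : ℝ} (h0 : 0 ≤ x) (h1 : x ≤ 1) (k : ℕ) : ‖tm x k‖ ≤ (1 / 2) ^ k := by
  unfold tm
  split_ifs with h
  · rw [norm_zero]
    positivity
  · rw [norm_mul, norm_pow, norm_neg, norm_one, one_pow, one_mul, Real.norm_eq_abs,
      abs_of_pos (by positivity)]
    have h2 : ((k + 1 : ℕ) : ℤ) ≤ ∑ i ∈ range (k + 1), (pq x i : ℤ) := by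
      have h3 : ∑ i ∈ range (k + 1), (1 : ℤ) ≤ ∑ i ∈ range (k + 1), (pq x i : ℤ) := by
        refine Finset.sum_le_sum fun i hi => ?_
        have h4 := pq_pos h0 h1 i (iter_ne k h i (Nat.lt_succ_iff.1 (mem_range.1 hi)))
        exact_mod_cast h4
      rwa [Finset.sum_const, card_range, nsmul_eq_mul, mul_one] at h3
    have h3 : (2 : ℝ) ^ (1 - (∑ i ∈ range (k + 1), (pq x i : ℤ)) : ℤ) ≤ (2 : ℝ) ^ (-(k : ℤ)) := by
      apply zpow_le_zpow_right₀ (by norm_num)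
      push_cast at h2
      linarith
    refine h3.trans_eq ?_
    rw [zpow_neg, zpow_natCast, one_div, inv_pow]

theorem tm_summable {x : ℝ} (h0 : 0 ≤ x) (h1 : x ≤ 1) : Summable (tm x) :=
  Summable.of_norm_bounded (summable_geometric_of_lt_one (by norm_num) (by norm_num))
    (tm_norm h0 h1)

/-- the recursion -/
theorem qm_rec {x : ℝ} (h0 : 0 < x) (h1 : x ≤ 1) :
    qm x = (2 : ℝ) ^ (1 - (⌊1 / x⌋₊ : ℤ)) - (2 : ℝ) ^ (-(⌊1 / x⌋₊ : ℤ)) * qm (gauss x) := by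
  rw [qm_eq, (tm_summable h0.le h1).tsum_eq_zero_add]
  have h2 : tm x 0 = (2 : ℝ) ^ (1 - (⌊1 / x⌋₊ : ℤ)) := by
    unfold tm
    rw [Function.iterate_zero, id_eq, if_neg h0.ne', pow_zero, one_mul, zero_add, sum_range_one]
    rfl
  have h3 : ∀ k, tm x (k + 1) = -(2 : ℝ) ^ (-(⌊1 / x⌋₊ : ℤ)) * tm (gauss x) k := by
    intro k
    unfold tm
    rw [Function.iterate_succ_apply]
    split_ifs with h
    · rw [mul_zero]
    · rw [sum_range_succ']
      have h4 : ∀ i, pq x (i + 1) = pq (gauss x) i := pq_succ x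
      have h5 : pq x 0 = ⌊1 / x⌋₊ := rfl
      simp only [h4, h5]
      rw [pow_succ]
      have h6 : (2 : ℝ) ^ (1 - (∑ i ∈ range (k + 1), (pq (gauss x) i : ℤ) + (⌊1 / x⌋₊ : ℤ))) =
          (2 : ℝ) ^ (-(⌊1 / x⌋₊ : ℤ)) * (2 : ℝ) ^ (1 - ∑ i ∈ range (k + 1), (pq (gauss x) i : ℤ)) := by
        rw [← zpow_add₀ (by norm_num)]
        congr 1
        ring
      rw [h6]
      ring
  rw [h2, tsum_congr h3, tsum_mul_left, ← qm_eq]
  ring

theorem floor_pos {x : ℝ} (h0 : 0 < x) (h1 : x ≤ 1) : 1 ≤ ⌊1 / x⌋₊ := by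
  rw [Nat.one_le_floor_iff, le_div_iff₀ h0]
  linarith

theorem two_zpow_le {a : ℕ} (ha : 1 ≤ a) : (2 : ℝ) ^ (-(a : ℤ)) ≤ 1 / 2 := by
  have h1 : (2 : ℝ) ^ (-(a : ℤ)) ≤ (2 : ℝ) ^ (-1 : ℤ) := by
    apply zpow_le_zpow_right₀ (by norm_num)
    omega
  refine h1.trans_eq ?_
  norm_num

theorem qm_zero : qm 0 = 0 := by
  rw [qm_eq]
  have h1 : ∀ k, tm 0 k = 0 := fun k => by
    unfold tm
    rw [if_pos (gauss_iter_zero k)]
  rw [tsum_congr h1, tsum_zero]

theorem qm_one : qm 1 = 1 := by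
  rw [qm_rec one_pos le_rfl]
  have h1 : gauss 1 = 0 := by
    unfold gauss
    rw [div_one]
    exact Int.fract_one
  rw [h1, qm_zero, div_one, Nat.floor_one]
  norm_num

theorem qm_bd (n : ℕ) : ∀ x : ℝ, 0 ≤ x → x ≤ 1 →
    -(2 * (1 / 2) ^ n) ≤ qm x ∧ qm x ≤ 1 + 2 * (1 / 2) ^ n := by
  induction n with
  | zero =>
    intro x h0 h1
    have h2 : ‖qm x‖ ≤ 2 := by
      rw [qm_eq]
      refine (tsum_of_norm_bounded (hasSum_geometric_of_lt_one (by norm_num) (by norm_num))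
        (tm_norm h0 h1)).trans_eq ?_
      norm_num
    rw [Real.norm_eq_abs, abs_le] at h2
    rw [pow_zero]
    constructor <;> linarith [h2.1, h2.2]
  | succ n ih =>
    intro x h0 h1
    rcases h0.eq_or_lt with rfl | h0'
    · rw [qm_zero]
      constructor
      · have : (0 : ℝ) ≤ 2 * (1 / 2) ^ (n + 1) := by positivity
        linarith
      · positivity
    · obtain ⟨h2, h3⟩ := ih (gauss x) (gauss_nonneg x) (gauss_lt x).le
      rw [qm_rec h0' h1]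
      have h4 : (2 : ℝ) ^ (1 - (⌊1 / x⌋₊ : ℤ)) = 2 * (2 : ℝ) ^ (-(⌊1 / x⌋₊ : ℤ)) := by
        rw [sub_eq_add_neg, zpow_add₀ (by norm_num), zpow_one]
      rw [h4]
      have h5 := two_zpow_le (floor_pos h0' h1)
      have h6 : (0 : ℝ) < (2 : ℝ) ^ (-(⌊1 / x⌋₊ : ℤ)) := by positivity
      set c := (2 : ℝ) ^ (-(⌊1 / x⌋₊ : ℤ))
      set ε := (2 : ℝ) * (1 / 2) ^ n with hε
      have h7 : (0 : ℝ) ≤ ε := by positivity
      have h8 : (2 : ℝ) * (1 / 2) ^ (n + 1) = ε / 2 := by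
        rw [hε, pow_succ]
        ring
      rw [h8]
      constructor
      · nlinarith
      · nlinarith

theorem qm_mem {x : ℝ} (h0 : 0 ≤ x) (h1 : x ≤ 1) : 0 ≤ qm x ∧ qm x ≤ 1 := by
  have ht : Filter.Tendsto (fun n : ℕ => 2 * (1 / 2 : ℝ) ^ n) Filter.atTop (nhds 0) := by
    have := (tendsto_pow_atTop_nhds_zero_of_lt_one (r := (1 / 2 : ℝ)) (by norm_num)
      (by norm_num)).const_mul 2
    rwa [mul_zero] at this
  constructor
  · have h2 := ht.neg
    rw [neg_zero] at h2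
    exact le_of_tendsto h2 (Filter.Eventually.of_forall fun n => (qm_bd n x h0 h1).1)
  · have h2 := ht.const_add 1
    rw [add_zero] at h2
    exact ge_of_tendsto h2 (Filter.Eventually.of_forall fun n => (qm_bd n x h0 h1).2)

theorem t_QM : S_QM := by
  refine ⟨qm_zero, qm_one, fun x h0 h1 => ⟨(qm_mem h0 h1).1, (qm_mem h0 h1).2, ?_, ?_⟩⟩
  · rcases h0.eq_or_lt with rfl | h0'
    · rw [zero_div, qm_zero, zero_div]
    · have hy0 : 0 < x / (1 + x) := by positivity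
      have hy1 : x / (1 + x) ≤ 1 := by
        rw [div_le_one (by positivity)]
        linarith
      have hinv : 1 / (x / (1 + x)) = 1 / x + 1 := by
        field_simp
      have hfl : ⌊1 / (x / (1 + x))⌋₊ = ⌊1 / x⌋₊ + 1 := by
        rw [hinv, Nat.floor_add_one (by positivity)]
      have hg : gauss (x / (1 + x)) = gauss x := by
        unfold gauss
        rw [hinv, Int.fract_add_one]
      rw [qm_rec hy0 hy1, qm_rec h0' h1, hfl, hg]
      have h4 : (2 : ℝ) ^ (1 - ((⌊1 / x⌋₊ + 1 : ℕ) : ℤ)) = (2 : ℝ) ^ (1 - (⌊1 / x⌋₊ : ℤ)) / 2 := by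
        rw [eq_div_iff (by norm_num)]
        nth_rewrite 2 [← zpow_one (2 : ℝ)]
        rw [← zpow_add₀ (by norm_num)]
        congr 1
        push_cast
        ring
      have h5 : (2 : ℝ) ^ (-((⌊1 / x⌋₊ + 1 : ℕ) : ℤ)) = (2 : ℝ) ^ (-(⌊1 / x⌋₊ : ℤ)) / 2 := by
        rw [eq_div_iff (by norm_num)]
        nth_rewrite 2 [← zpow_one (2 : ℝ)]
        rw [← zpow_add₀ (by norm_num)]
        congr 1
        push_cast
        ring
      rw [h4, h5]
      ring
  · have hy0 : 0 < 1 / (1 + x) := by positivity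
    have hy1 : 1 / (1 + x) ≤ 1 := by
      rw [div_le_one (by positivity)]
      linarith
    have hinv : 1 / (1 / (1 + x)) = x + 1 := by
      field_simp
      ring
    rw [qm_rec hy0 hy1]
    unfold gauss
    rw [hinv, Int.fract_add_one, Nat.floor_add_one h0]
    rcases h1.eq_or_lt with rfl | h1'
    · rw [Int.fract_one, qm_zero, Nat.floor_one, qm_one]
      norm_num
    · have h2 : ⌊x⌋₊ = 0 := Nat.floor_eq_zero.2 h1'
      rw [h2, Int.fract_eq_self.2 ⟨h0, h1'⟩]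
      norm_num
      ring

end Pool.Agent.Q239.MQ
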