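import Pool.Agent.Q268.MQ.Stm

set_option autoImplicit false

/-! Project MQ, job ST: the Stieltjes function of the question mark function. -/

namespace Pool.Agent.Q239.MQ

open Pool.Agent.Q268.MQ
open Set

theorem st_mono (h : S_QM) (k : ℕ) : ∀ x y : ℝ, 0 ≤ x → x ≤ y → y ≤ 1 →
    qm x - qm y ≤ (1 / 2) ^ k := by
  obtain ⟨-, -, h3⟩ := h
  induction k with
  | zero =>
    intro x y hx hxy hy
    have h4 := (h3 x hx (hxy.trans hy)).2.1
    have h5 := (h3 y (hx.trans hxy) hy).1
    rw [pow_zero]
    linarith
  | succ k ih =>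
    intro x y hx hxy hy
    by_cases h4 : y ≤ 1 / 2
    · have hX : 0 ≤ x / (1 - x) := div_nonneg hx (by linarith)
      have hXY : x / (1 - x) ≤ y / (1 - y) := by
        rw [div_le_div_iff₀ (by linarith) (by linarith)]
        nlinarith
      have hY : y / (1 - y) ≤ 1 := by
        rw [div_le_one (by linarith)]
        linarith
      have e1 : (x / (1 - x)) / (1 + x / (1 - x)) = x := by
        have : (1 - x) ≠ 0 := by linarith
        field_simp
        ring
      have e2 : (y / (1 - y)) / (1 + y / (1 - y)) = y := by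
        have : (1 - y) ≠ 0 := by linarith
        field_simp
        ring
      have h5 := (h3 _ hX (hXY.trans hY)).2.2.1
      have h6 := (h3 _ (hX.trans hXY) hY).2.2.1
      rw [e1] at h5
      rw [e2] at h6
      have h7 := ih _ _ hX hXY hY
      rw [h5, h6, pow_succ]
      linarith
    · push Not at h4
      by_cases h5 : 1 / 2 ≤ x
      · have hx0 : 0 < x := by linarith
        have hy0 : 0 < y := by linarith
        have hX : 1 / x - 1 ≤ 1 := by
          have : 1 / x ≤ 2 := by
            rw [div_le_iff₀ hx0]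
            linarith
          linarith
        have hYX : 1 / y - 1 ≤ 1 / x - 1 := by
          have := one_div_le_one_div_of_le hx0 hxy
          linarith
        have hY : 0 ≤ 1 / y - 1 := by
          have : 1 ≤ 1 / y := by
            rw [le_div_iff₀ hy0]
            linarith
          linarith
        have e1 : 1 / (1 + (1 / x - 1)) = x := by
          rw [add_sub_cancel, one_div_one_div]
        have e2 : 1 / (1 + (1 / y - 1)) = y := by
          rw [add_sub_cancel, one_div_one_div]
        have h6 := (h3 _ (hY.trans hYX) hX).2.2.2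
        have h7 := (h3 _ hY (hYX.trans hX)).2.2.2
        rw [e1] at h6
        rw [e2] at h7
        have h8 := ih _ _ hY hYX hX
        rw [h6, h7, pow_succ]
        linarith
      · push Not at h5
        have hX : 0 ≤ x / (1 - x) := div_nonneg hx (by linarith)
        have hX1 : x / (1 - x) ≤ 1 := by
          rw [div_le_one (by linarith)]
          linarith
        have e1 : (x / (1 - x)) / (1 + x / (1 - x)) = x := by
          have : (1 - x) ≠ 0 := by linarith
          field_simp
          ring
        have hy0 : 0 < y := by linarith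
        have hY1 : 1 / y - 1 ≤ 1 := by
          have : 1 / y ≤ 2 := by
            rw [div_le_iff₀ hy0]
            linarith
          linarith
        have hY : 0 ≤ 1 / y - 1 := by
          have : 1 ≤ 1 / y := by
            rw [le_div_iff₀ hy0]
            linarith
          linarith
        have e2 : 1 / (1 + (1 / y - 1)) = y := by
          rw [add_sub_cancel, one_div_one_div]
        have h6 := (h3 _ hX hX1)
        have h7 := (h3 _ hY hY1)
        have h8 := h6.2.2.1
        have h9 := h7.2.2.2
        rw [e1] at h8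
        rw [e2] at h9
        rw [h8, h9]
        have h10 : (0 : ℝ) ≤ (1 / 2) ^ (k + 1) := by positivity
        linarith [h6.2.1, h7.2.1]

theorem st_monotone (h : S_QM) {x y : ℝ} (hx : 0 ≤ x) (hxy : x ≤ y) (hy : y ≤ 1) :
    qm x ≤ qm y := by
  have h1 : qm x - qm y ≤ 0 := by
    refine ge_of_tendsto (tendsto_pow_atTop_nhds_zero_of_lt_one (r := (1 / 2 : ℝ)) (by norm_num)
      (by norm_num)) (Filter.Eventually.of_forall fun k => st_mono h k x y hx hxy hy)
  linarith

theorem st_dense (h : S_QM) (k : ℕ) : ∀ z : ℝ, 0 ≤ z → z ≤ 1 →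
    ∃ x : ℝ, 0 ≤ x ∧ x ≤ 1 ∧ |qm x - z| ≤ (1 / 2) ^ k := by
  obtain ⟨h1, h2, h3⟩ := h
  induction k with
  | zero =>
    intro z hz0 hz1
    refine ⟨0, le_rfl, zero_le_one, ?_⟩
    rw [h1, pow_zero, zero_sub, abs_neg, abs_of_nonneg hz0]
    exact hz1
  | succ k ih =>
    intro z hz0 hz1
    by_cases h4 : z ≤ 1 / 2
    · obtain ⟨x, hx0, hx1, hx⟩ := ih (2 * z) (by linarith) (by linarith)
      refine ⟨x / (1 + x), by positivity, ?_, ?_⟩
      · rw [div_le_one (by positivity)]
        linarith
      · rw [(h3 x hx0 hx1).2.2.1]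
        have e : qm x / 2 - z = (qm x - 2 * z) / 2 := by ring
        rw [e, abs_div, abs_two, pow_succ]
        linarith
    · push Not at h4
      obtain ⟨x, hx0, hx1, hx⟩ := ih (2 - 2 * z) (by linarith) (by linarith)
      refine ⟨1 / (1 + x), by positivity, ?_, ?_⟩
      · rw [div_le_one (by positivity)]
        linarith
      · rw [(h3 x hx0 hx1).2.2.2]
        have e : 1 - qm x / 2 - z = -((qm x - (2 - 2 * z)) / 2) := by ring
        rw [e, abs_neg, abs_div, abs_two, pow_succ]
        linarith

open Classical in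
/-- the extension with dense range -/
noncomputable def hx (x : ℝ) : ℝ := if x < 0 then x else if x ≤ 1 then qm x else x

theorem hx_neg {x : ℝ} (h : x < 0) : hx x = x := if_pos h

theorem hx_mid {x : ℝ} (h0 : 0 ≤ x) (h1 : x ≤ 1) : hx x = qm x := by
  unfold hx
  rw [if_neg (not_lt.2 h0), if_pos h1]

theorem hx_big {x : ℝ} (h : 1 < x) : hx x = x := by
  unfold hx
  rw [if_neg (by linarith), if_neg (not_le.2 h)]

theorem hx_monotone (h : S_QM) : Monotone hx := by
  intro x y hxy
  rcases lt_or_ge y 0 with hy | hy
  · rw [hx_neg hy, hx_neg (lt_of_le_of_lt hxy hy)]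
    exact hxy
  · rcases lt_or_ge x 0 with hx' | hx'
    · rw [hx_neg hx']
      rcases le_or_gt y 1 with hy1 | hy1
      · rw [hx_mid hy hy1]
        exact hx'.le.trans (h.2.2 y hy hy1).1
      · rw [hx_big hy1]
        exact hxy
    · rcases le_or_gt y 1 with hy1 | hy1
      · rw [hx_mid hy hy1, hx_mid hx' (hxy.trans hy1)]
        exact st_monotone h hx' hxy hy1
      · rw [hx_big hy1]
        rcases le_or_gt x 1 with hx1 | hx1
        · rw [hx_mid hx' hx1]
          exact (h.2.2 x hx' hx1).2.1.trans hy1.le
        · rw [hx_big hx1]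
          exact hxy

theorem hx_dense (h : S_QM) : DenseRange hx := by
  intro z
  rw [Metric.mem_closure_range_iff]
  intro ε hε
  rcases lt_or_ge z 0 with hz | hz
  · exact ⟨z, by rw [hx_neg hz, dist_self]; exact hε⟩
  · rcases le_or_gt z 1 with hz1 | hz1
    · obtain ⟨k, hk⟩ := exists_pow_lt_of_lt_one hε (show (1 / 2 : ℝ) < 1 by norm_num)
      obtain ⟨x, hx0, hx1, hx2⟩ := st_dense h k z hz hz1
      refine ⟨x, ?_⟩
      rw [hx_mid hx0 hx1, dist_comm, Real.dist_eq]
      exact lt_of_le_of_lt hx2 hk
    · exact ⟨z, by rw [hx_big hz1, dist_self]; exact hε⟩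

theorem hx_cont (h : S_QM) : Continuous hx :=
  (hx_monotone h).continuous_of_denseRange (hx_dense h)

theorem t_ST (h : S_QM) : S_ST := by
  have hc : Continuous fun x => max 0 (min 1 (hx x)) :=
    continuous_const.max (continuous_const.min (hx_cont h))
  have hm : Monotone fun x => max 0 (min 1 (hx x)) := by
    intro x y hxy
    exact max_le_max le_rfl (min_le_min le_rfl (hx_monotone h hxy))
  refine ⟨⟨fun x => max 0 (min 1 (hx x)), hm, fun x => hc.continuousAt.continuousWithinAt⟩,
    ?_, ?_, ?_, hc⟩
  · intro x hx'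
    change max 0 (min 1 (hx x)) = 0
    rw [hx_neg hx']
    exact max_eq_left ((min_le_right _ _).trans hx'.le)
  · intro x h0 h1
    change max 0 (min 1 (hx x)) = qm x
    rw [hx_mid h0 h1, min_eq_right (h.2.2 x h0 h1).2.1, max_eq_right (h.2.2 x h0 h1).1]
  · intro x hx'
    change max 0 (min 1 (hx x)) = 1
    rw [hx_big hx', min_eq_left hx'.le, max_eq_right zero_le_one]

end Pool.Agent.Q239.MQ
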