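import Mathlib

set_option autoImplicit false

/-! Project MQ, job TAUB (part A): Fourier inversion, majorants. -/

namespace Pool.Agent.Q239.MQ.TB

open Filter Topology MeasureTheory Set FourierTransform

/-- Fourier inversion for the Laplace transform -/
theorem inv_lap (G : ℝ → ℂ) (H : ℂ → ℂ) (C K : ℝ) (hK : 0 < K)
    (hGc : ContinuousOn G (Ici 0)) (hG0 : G 0 = 0)
    (hGb : ∀ T : ℝ, 0 ≤ T → ‖G T‖ ≤ C * Real.exp (K * T))
    (hH : ∀ v : ℂ, K < v.re → H v = ∫ T in Ioi (0 : ℝ), Complex.exp (-v * T) * G T)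
    (hHd : DifferentiableOn ℂ H {v | 0 < v.re})
    (hHb : ∀ v : ℂ, 0 ≤ v.re → 1 ≤ ‖v‖ → ‖H v‖ ≤ C / ‖v‖ ^ 2) {T : ℝ} (hT : 0 ≤ T) :
    G T = ((2 * Real.pi)⁻¹ : ℝ) • ∫ y : ℝ, Complex.exp (((K + 1 : ℝ) + y * Complex.I) * T) *
      H ((K + 1 : ℝ) + y * Complex.I) := by
  set c : ℝ := K + 1 with hc
  have hC : 0 ≤ C := by
    have := hHb 1 (by simp) (by simp)
    simp only [norm_one, one_pow, div_one] at this
    exact (norm_nonneg _).trans this
  set g : ℝ → ℂ := fun t => Complex.exp (-(c : ℂ) * t) * G (max t 0) with hg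
  have hgc : Continuous g := by
    have h1 : Continuous (fun t : ℝ => G (max t 0)) :=
      hGc.comp_continuous (by fun_prop) (fun t => mem_Ici.2 (le_max_right t 0))
    exact (by fun_prop : Continuous fun t : ℝ => Complex.exp (-(c : ℂ) * t)).mul h1
  have hgneg : ∀ t : ℝ, t ≤ 0 → g t = 0 := by
    intro t ht
    simp [hg, max_eq_right ht, hG0]
  have hgpos : ∀ t : ℝ, 0 ≤ t → g t = Complex.exp (-(c : ℂ) * t) * G t := by
    intro t ht
    simp [hg, max_eq_left ht]
  have hgb : ∀ t : ℝ, 0 ≤ t → ‖g t‖ ≤ C * Real.exp (-t) := by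
    intro t ht
    rw [hgpos t ht, norm_mul, Complex.norm_exp]
    have h1 : (-(c : ℂ) * t).re = -c * t := by simp
    rw [h1]
    calc Real.exp (-c * t) * ‖G t‖ ≤ Real.exp (-c * t) * (C * Real.exp (K * t)) :=
          mul_le_mul_of_nonneg_left (hGb t ht) (Real.exp_pos _).le
      _ = C * Real.exp (-t) := by
          rw [mul_left_comm, ← Real.exp_add]
          congr 2
          rw [hc]; ring
  have hexp : IntegrableOn (fun t : ℝ => C * Real.exp (-t)) (Ioi 0) := by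
    have := integrableOn_exp_neg_Ioi 0
    exact this.const_mul C
  have hgI : IntegrableOn g (Ioi 0) := by
    refine Integrable.mono' hexp hgc.aestronglyMeasurable ?_
    refine (ae_restrict_iff' measurableSet_Ioi).2 (Eventually.of_forall fun t ht => hgb t (le_of_lt ht))
  have hgi : Integrable g := by
    rw [← integrableOn_univ, ← Iic_union_Ioi (a := (0 : ℝ))]
    refine IntegrableOn.union ?_ hgI
    have h0 : IntegrableOn (fun _ : ℝ => (0 : ℂ)) (Iic 0) := integrableOn_zero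
    exact h0.congr_fun (fun t ht => (hgneg t ht).symm) measurableSet_Iic
  have hFg : ∀ ξ : ℝ, 𝓕 g ξ = H (c + (2 * Real.pi * ξ : ℝ) * Complex.I) := by
    intro ξ
    rw [Real.fourier_real_eq_integral_exp_smul]
    have hre : ((c : ℂ) + (2 * Real.pi * ξ : ℝ) * Complex.I).re = c := by simp
    rw [hH _ (by rw [hre, hc]; linarith)]
    have : (fun v : ℝ => Complex.exp (↑(-2 * Real.pi * v * ξ) * Complex.I) • g v) =
        (Ioi (0 : ℝ)).indicator (fun v => Complex.exp (-((c : ℂ) + (2 * Real.pi * ξ : ℝ) * Complex.I) * v) * G v) := by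
      funext v
      by_cases hv : v ∈ Ioi (0 : ℝ)
      · rw [indicator_of_mem hv, hgpos v (le_of_lt hv), smul_eq_mul, ← mul_assoc, ← Complex.exp_add]
        congr 2
        push_cast
        ring
      · rw [indicator_of_notMem hv, hgneg v (not_lt.1 hv), smul_zero]
    rw [this, integral_indicator measurableSet_Ioi]
  have hFi : Integrable (𝓕 g) := by
    have h1 : 𝓕 g = fun ξ : ℝ => H (c + (2 * Real.pi * ξ : ℝ) * Complex.I) := funext hFg
    rw [h1]
    have hcont : Continuous fun ξ : ℝ => H (c + (2 * Real.pi * ξ : ℝ) * Complex.I) := by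
      refine hHd.continuousOn.comp_continuous (by fun_prop) (fun ξ => ?_)
      change 0 < (((c : ℂ) + (2 * Real.pi * ξ : ℝ) * Complex.I)).re
      have : ((c : ℂ) + (2 * Real.pi * ξ : ℝ) * Complex.I).re = c := by simp
      rw [this, hc]; linarith
    refine Integrable.mono' (g := fun ξ : ℝ => C * (1 + ξ ^ 2)⁻¹) (integrable_inv_one_add_sq.const_mul C)
      hcont.aestronglyMeasurable (Eventually.of_forall fun ξ => ?_)
    have hn : ‖(c : ℂ) + (2 * Real.pi * ξ : ℝ) * Complex.I‖ ^ 2 = c ^ 2 + (2 * Real.pi * ξ) ^ 2 := by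
      rw [← Complex.normSq_eq_norm_sq, Complex.normSq_apply]
      simp
      ring
    have hn1 : 1 + ξ ^ 2 ≤ ‖(c : ℂ) + (2 * Real.pi * ξ : ℝ) * Complex.I‖ ^ 2 := by
      rw [hn]
      have : (1 : ℝ) ≤ (2 * Real.pi) ^ 2 := by nlinarith [Real.pi_gt_three]
      nlinarith [sq_nonneg ξ, sq_nonneg (c - 1)]
    have hn2 : 1 ≤ ‖(c : ℂ) + (2 * Real.pi * ξ : ℝ) * Complex.I‖ := by
      nlinarith [norm_nonneg ((c : ℂ) + (2 * Real.pi * ξ : ℝ) * Complex.I), sq_nonneg ξ]
    have hre : ((c : ℂ) + (2 * Real.pi * ξ : ℝ) * Complex.I).re = c := by simp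
    refine (hHb _ (by rw [hre, hc]; linarith) hn2).trans ?_
    rw [div_eq_mul_inv]
    refine mul_le_mul_of_nonneg_left ?_ hC
    exact inv_anti₀ (by positivity) hn1
  have hinv : 𝓕⁻ (𝓕 g) T = g T := by
    rw [hgc.fourierInv_fourier_eq hgi hFi]
  rw [Real.fourierInv_eq'] at hinv
  have hGT : G T = Complex.exp ((c : ℂ) * T) * g T := by
    rw [hgpos T hT, ← mul_assoc, ← Complex.exp_add]
    simp
  rw [hGT, ← hinv]
  have h2 := Measure.integral_comp_mul_left (fun y : ℝ => Complex.exp (((c : ℝ) + y * Complex.I) * T) *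
      H ((c : ℝ) + y * Complex.I)) (2 * Real.pi)
  rw [abs_of_pos (by positivity)] at h2
  rw [← h2, ← integral_const_mul]
  refine integral_congr_ae (Eventually.of_forall fun ξ => ?_)
  simp only [hFg, smul_eq_mul]
  rw [← mul_assoc, ← Complex.exp_add]
  congr 2
  simp only [RCLike.inner_apply, conj_trivial]
  push_cast
  ring

/-- integrability of `|y|^r` near zero, `r > -1` -/
theorem int_abs_rpow {r : ℝ} (hr : -1 < r) : IntegrableOn (fun y : ℝ => |y| ^ r) (Icc (-1) 1) := by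
  have h1 : IntegrableOn (fun y : ℝ => |y| ^ r) (Ioc 0 1) := by
    have := (intervalIntegral.intervalIntegrable_rpow' (a := 0) (b := 1) hr)
    rw [intervalIntegrable_iff_integrableOn_Ioc_of_le zero_le_one] at this
    refine this.congr_fun (fun y hy => ?_) measurableSet_Ioc
    simp only
    rw [abs_of_pos hy.1]
  have h2 : IntegrableOn (fun y : ℝ => |y| ^ r) (Ico (-1) 0) := by
    have h3 : IntervalIntegrable (fun y : ℝ => |y| ^ r) volume 0 1 := by
      rw [intervalIntegrable_iff_integrableOn_Ioc_of_le zero_le_one]; exact h1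
    rw [IntervalIntegrable.iff_comp_neg] at h3
    simp only [abs_neg, neg_zero] at h3
    have h4 := h3.symm
    rw [intervalIntegrable_iff_integrableOn_Ioc_of_le (by norm_num)] at h4
    rw [← integrableOn_Icc_iff_integrableOn_Ico]
    rwa [← integrableOn_Icc_iff_integrableOn_Ioc] at h4
  rw [integrableOn_Icc_iff_integrableOn_Ioc, ← Ioc_union_Ioc_eq_Ioc (b := (0 : ℝ)) (by norm_num) (by norm_num)]
  refine IntegrableOn.union ?_ h1
  rw [← integrableOn_Icc_iff_integrableOn_Ioc, integrableOn_Icc_iff_integrableOn_Ico]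
  exact h2

/-- the majorant -/
noncomputable def maj (C r : ℝ) (y : ℝ) : ℝ :=
  C * ((Icc (-1 : ℝ) 1).indicator (fun y : ℝ => |y| ^ r) y + 2 * (1 + y ^ 2)⁻¹)

theorem maj_int (C : ℝ) {r : ℝ} (hr : -1 < r) : Integrable (maj C r) := by
  have h1 : Integrable ((Icc (-1 : ℝ) 1).indicator (fun y : ℝ => |y| ^ r)) :=
    (integrable_indicator_iff measurableSet_Icc).2 (int_abs_rpow hr)
  exact (h1.add (integrable_inv_one_add_sq.const_mul 2)).const_mul C

theorem maj_bound (H : ℂ → ℂ) (C α : ℝ)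
    (hH1 : ∀ v : ℂ, 0 ≤ v.re → v ≠ 0 → ‖v‖ ≤ 1 → ‖H v‖ ≤ C * ‖v‖ ^ (α - 1))
    (hH2 : ∀ v : ℂ, 0 ≤ v.re → 1 ≤ ‖v‖ → ‖H v‖ ≤ C / ‖v‖ ^ 2) (σ y : ℝ) (hσ : 0 ≤ σ) (hy : y ≠ 0) :
    ‖H ((σ : ℂ) + y * Complex.I)‖ ≤ maj C (min α 1 - 1) y := by
  have hC : 0 ≤ C := by
    have := hH2 1 (by simp) (by simp)
    simp only [norm_one, one_pow, div_one] at this
    exact (norm_nonneg _).trans this
  set v : ℂ := (σ : ℂ) + y * Complex.I with hv
  have hre : v.re = σ := by simp [hv]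
  have him : v.im = y := by simp [hv]
  have hyv : |y| ≤ ‖v‖ := by rw [← him]; exact Complex.abs_im_le_norm v
  have hy0 : 0 < |y| := abs_pos.2 hy
  have hv0 : v ≠ 0 := by
    intro h; rw [h] at him; simp at him; exact hy him.symm
  have hm : min α 1 - 1 ≤ 0 := by linarith [min_le_right α 1]
  have hm2 : min α 1 - 1 ≤ α - 1 := by linarith [min_le_left α 1]
  have hy2 : 0 ≤ 2 * (1 + y ^ 2)⁻¹ := by positivity
  unfold maj
  by_cases h1 : ‖v‖ ≤ 1
  · have hyI : y ∈ Icc (-1 : ℝ) 1 := abs_le.1 (hyv.trans h1)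
    rw [indicator_of_mem hyI]
    refine (hH1 v (by rw [hre]; exact hσ) hv0 h1).trans (mul_le_mul_of_nonneg_left ?_ hC)
    have a1 : ‖v‖ ^ (α - 1) ≤ ‖v‖ ^ (min α 1 - 1) :=
      Real.rpow_le_rpow_of_exponent_ge (norm_pos_iff.2 hv0) h1 hm2
    have a2 : ‖v‖ ^ (min α 1 - 1) ≤ |y| ^ (min α 1 - 1) :=
      Real.rpow_le_rpow_of_nonpos hy0 hyv hm
    linarith
  · push Not at h1
    refine (hH2 v (by rw [hre]; exact hσ) h1.le).trans ?_
    rw [div_eq_mul_inv]
    refine mul_le_mul_of_nonneg_left ?_ hC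
    by_cases h2 : |y| ≤ 1
    · have hyI : y ∈ Icc (-1 : ℝ) 1 := abs_le.1 h2
      rw [indicator_of_mem hyI]
      have a3 : (1 : ℝ) ≤ |y| ^ (min α 1 - 1) := Real.one_le_rpow_of_pos_of_le_one_of_nonpos hy0 h2 hm
      have a4 : (‖v‖ ^ 2)⁻¹ ≤ 1 := inv_le_one_of_one_le₀ (by nlinarith)
      linarith
    · push Not at h2
      have hyI : y ∉ Icc (-1 : ℝ) 1 := by
        intro h; exact absurd (abs_le.2 h) (not_le.2 h2)
      rw [indicator_of_notMem hyI, zero_add]
      have a5 : y ^ 2 ≤ ‖v‖ ^ 2 := by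
        rw [← sq_abs y]; exact pow_le_pow_left₀ hy0.le hyv 2
      have a6 : 1 ≤ y ^ 2 := by rw [← sq_abs y]; nlinarith
      have a7 : (‖v‖ ^ 2)⁻¹ ≤ (y ^ 2)⁻¹ := inv_anti₀ (by positivity) a5
      have a8 : (y ^ 2)⁻¹ ≤ 2 * (1 + y ^ 2)⁻¹ := by
        rw [inv_eq_one_div, ← div_eq_mul_inv, div_le_div_iff₀ (by positivity) (by positivity)]
        linarith
      linarith

end Pool.Agent.Q239.MQ.TB
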