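import Pool.Agent.Q268.MQ.Stm
import Pool.Agent.Q239.MQ.TAUBA

set_option autoImplicit false

/-! Project MQ, job TAUB: a Tauberian lemma. -/

namespace Pool.Agent.Q239.MQ.TB

open Filter Topology MeasureTheory Set FourierTransform Pool.Agent.Q268.MQ

theorem exp_norm (σ y T : ℝ) : ‖Complex.exp (((σ : ℂ) + y * Complex.I) * T)‖ = Real.exp (σ * T) := by
  rw [Complex.norm_exp]
  congr 1
  simp

/-- integrability on the lines `Re v = σ > 0` -/
theorem line_int (H : ℂ → ℂ) (C α : ℝ) (hα : 0 < α)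
    (hHd : DifferentiableOn ℂ H {v | 0 < v.re})
    (hH1 : ∀ v : ℂ, 0 ≤ v.re → v ≠ 0 → ‖v‖ ≤ 1 → ‖H v‖ ≤ C * ‖v‖ ^ (α - 1))
    (hH2 : ∀ v : ℂ, 0 ≤ v.re → 1 ≤ ‖v‖ → ‖H v‖ ≤ C / ‖v‖ ^ 2) {σ T : ℝ} (hσ : 0 < σ) :
    Integrable (fun y : ℝ => Complex.exp (((σ : ℂ) + y * Complex.I) * T) * H ((σ : ℂ) + y * Complex.I)) := by
  have hr : -1 < min α 1 - 1 := by
    have := lt_min hα one_pos
    linarith
  have hcont : Continuous fun y : ℝ => H ((σ : ℂ) + y * Complex.I) := by
    refine hHd.continuousOn.comp_continuous (by fun_prop) (fun y => ?_)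
    change 0 < ((σ : ℂ) + y * Complex.I).re
    simpa using hσ
  refine Integrable.mono' ((maj_int C hr).const_mul (Real.exp (σ * T)))
    ((by fun_prop : Continuous fun y : ℝ => Complex.exp (((σ : ℂ) + y * Complex.I) * T)).mul
      hcont).aestronglyMeasurable ?_
  have hae : ∀ᵐ y : ℝ, y ≠ 0 := by simp [ae_iff]
  filter_upwards [hae] with y hy
  rw [norm_mul, exp_norm]
  exact mul_le_mul_of_nonneg_left (maj_bound H C α hH1 hH2 σ y hσ.le hy) (Real.exp_pos _).le

/-- shifting the line -/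
theorem line_shift (H : ℂ → ℂ) (C α : ℝ) (hα : 0 < α)
    (hHd : DifferentiableOn ℂ H {v | 0 < v.re})
    (hH1 : ∀ v : ℂ, 0 ≤ v.re → v ≠ 0 → ‖v‖ ≤ 1 → ‖H v‖ ≤ C * ‖v‖ ^ (α - 1))
    (hH2 : ∀ v : ℂ, 0 ≤ v.re → 1 ≤ ‖v‖ → ‖H v‖ ≤ C / ‖v‖ ^ 2) {σ c T : ℝ} (hσ : 0 < σ) (hσc : σ ≤ c)
    (hT : 0 ≤ T) :
    ∫ y : ℝ, Complex.exp (((σ : ℂ) + y * Complex.I) * T) * H ((σ : ℂ) + y * Complex.I) =
    ∫ y : ℝ, Complex.exp (((c : ℂ) + y * Complex.I) * T) * H ((c : ℂ) + y * Complex.I) := by
  have hC : 0 ≤ C := by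
    have := hH2 1 (by simp) (by simp)
    simp only [norm_one, one_pow, div_one] at this
    exact (norm_nonneg _).trans this
  set F : ℂ → ℂ := fun v => Complex.exp (v * T) * H v with hF
  have hFd : DifferentiableOn ℂ F {v | 0 < v.re} := by
    refine DifferentiableOn.mul ?_ hHd
    exact (by fun_prop : Differentiable ℂ fun v : ℂ => Complex.exp (v * T)).differentiableOn
  have hrect : ∀ R : ℝ, (∫ x : ℝ in σ..c, F (x + (-R : ℝ) * Complex.I)) - (∫ x : ℝ in σ..c, F (x + R * Complex.I)) +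
      Complex.I • (∫ y : ℝ in (-R)..R, F (c + y * Complex.I)) -
      Complex.I • (∫ y : ℝ in (-R)..R, F (σ + y * Complex.I)) = 0 := by
    intro R
    have := Complex.integral_boundary_rect_eq_zero_of_differentiableOn F ⟨σ, -R⟩ ⟨c, R⟩
      (hFd.mono (fun v hv => ?_))
    · simpa using this
    · rw [Complex.mem_reProdIm] at hv
      have h1 := hv.1
      simp only [uIcc_of_le hσc] at h1
      change 0 < v.re
      linarith [h1.1]
  have hhor : ∀ s : ℝ, (s = 1 ∨ s = -1) → Tendsto (fun R : ℝ => ∫ x : ℝ in σ..c, F (x + (s * R : ℝ) * Complex.I)) atTop (𝓝 0) := by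
    intro s hs
    have hs2 : s ^ 2 = 1 := by rcases hs with h | h <;> rw [h] <;> norm_num
    rw [tendsto_zero_iff_norm_tendsto_zero]
    have hlim : Tendsto (fun R : ℝ => Real.exp (c * T) * (C * (R⁻¹ ^ 2)) * |c - σ|) atTop (𝓝 0) := by
      have : Tendsto (fun R : ℝ => Real.exp (c * T) * (C * (R⁻¹ ^ 2)) * |c - σ|) atTop
          (𝓝 (Real.exp (c * T) * (C * (0 ^ 2)) * |c - σ|)) :=
        (((tendsto_inv_atTop_zero.pow 2).const_mul C).const_mul _).mul_const _
      simpa using this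
    refine squeeze_zero' (Eventually.of_forall fun R => norm_nonneg _) ?_ hlim
    filter_upwards [eventually_ge_atTop 1] with R hR
    refine intervalIntegral.norm_integral_le_of_norm_le_const (fun x hx => ?_)
    rw [uIoc_of_le hσc] at hx
    have hx0 : 0 < x := hσ.trans hx.1
    rw [hF]
    simp only
    rw [norm_mul, exp_norm]
    have him : |R| ≤ ‖(x : ℂ) + (s * R : ℝ) * Complex.I‖ := by
      have h1 := Complex.abs_im_le_norm ((x : ℂ) + (s * R : ℝ) * Complex.I)
      have h2 : ((x : ℂ) + (s * R : ℝ) * Complex.I).im = s * R := by simp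
      have h3 : |s| = 1 := by rcases hs with h | h <;> rw [h] <;> norm_num
      rw [h2, abs_mul, h3, one_mul] at h1
      exact h1
    rw [abs_of_pos (by linarith)] at him
    have hre : 0 ≤ ((x : ℂ) + (s * R : ℝ) * Complex.I).re := by simpa using hx0.le
    refine mul_le_mul ?_ ?_ (norm_nonneg _) (Real.exp_pos _).le
    · exact Real.exp_le_exp.2 (mul_le_mul_of_nonneg_right hx.2 hT)
    · refine (hH2 _ hre (hR.trans him)).trans ?_
      rw [div_eq_mul_inv]
      refine mul_le_mul_of_nonneg_left ?_ hC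
      rw [inv_pow]
      exact inv_anti₀ (by positivity) (pow_le_pow_left₀ (by linarith) him 2)
  have hc0 : 0 < c := hσ.trans_le hσc
  have hv1 := intervalIntegral_tendsto_integral (line_int H C α hα hHd hH1 hH2 (T := T) hc0)
    tendsto_neg_atTop_atBot tendsto_id
  have hv2 := intervalIntegral_tendsto_integral (line_int H C α hα hHd hH1 hH2 (T := T) hσ)
    tendsto_neg_atTop_atBot tendsto_id
  have hh1 := hhor (-1) (Or.inr rfl)
  have hh2 := hhor 1 (Or.inl rfl)
  have hlim := ((hh1.sub hh2).add (hv1.const_smul Complex.I)).sub (hv2.const_smul Complex.I)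
  have hz : ∀ R : ℝ, ((∫ x : ℝ in σ..c, F (x + (-1 * R : ℝ) * Complex.I)) -
      (∫ x : ℝ in σ..c, F (x + (1 * R : ℝ) * Complex.I))) +
      Complex.I • (∫ y : ℝ in (-R)..(id R), Complex.exp (((c : ℂ) + y * Complex.I) * T) * H ((c : ℂ) + y * Complex.I)) -
      Complex.I • (∫ y : ℝ in (-R)..(id R), Complex.exp (((σ : ℂ) + y * Complex.I) * T) * H ((σ : ℂ) + y * Complex.I)) = 0 := by
    intro R
    have := hrect R
    rw [neg_one_mul, one_mul]
    exact this
  have hlim2 := hlim.congr hz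
  have hu := tendsto_nhds_unique hlim2 tendsto_const_nhds
  simp only [sub_zero, zero_add, smul_eq_mul] at hu
  have h3 : Complex.I * ((∫ y : ℝ, Complex.exp (((c : ℂ) + y * Complex.I) * T) * H ((c : ℂ) + y * Complex.I)) -
    ∫ y : ℝ, Complex.exp (((σ : ℂ) + y * Complex.I) * T) * H ((σ : ℂ) + y * Complex.I)) = 0 := by
    rw [mul_sub]; exact hu
  rcases mul_eq_zero.1 h3 with h | h
  · exact absurd h Complex.I_ne_zero
  · exact (sub_eq_zero.1 h).symm

/-- **job TAUB** -/
theorem t_TAUB : S_TAUB := by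
  intro G H C K α hK hα hGc hG0 hGb hH hHd hHc hH1 hH2
  have hr : -1 < min α 1 - 1 := by
    have := lt_min hα one_pos
    linarith
  set c : ℝ := K + 1 with hc
  have hc0 : 0 < c := by rw [hc]; linarith
  have hC : 0 ≤ C := by
    have := hH2 1 (by simp) (by simp)
    simp only [norm_one, one_pow, div_one] at this
    exact (norm_nonneg _).trans this
  have hae : ∀ᵐ y : ℝ, y ≠ 0 := by simp [ae_iff]
  -- the limit on the imaginary axis
  have key : ∀ T : ℝ, 0 ≤ T → G T = ((2 * Real.pi)⁻¹ : ℝ) • ∫ y : ℝ, Complex.exp ((y * Complex.I) * T) *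
      H (y * Complex.I) := by
    intro T hT
    rw [inv_lap G H C K hK hGc hG0 hGb hH hHd hH2 hT]
    congr 1
    rw [← hc]
    have hconst : ∀ᶠ σ : ℝ in 𝓝[>] 0, ∫ y : ℝ, Complex.exp (((σ : ℂ) + y * Complex.I) * T) * H ((σ : ℂ) + y * Complex.I) =
        ∫ y : ℝ, Complex.exp (((c : ℂ) + y * Complex.I) * T) * H ((c : ℂ) + y * Complex.I) := by
      have h1 : ∀ᶠ σ : ℝ in 𝓝[>] 0, σ ∈ Ioc 0 c := Ioc_mem_nhdsGT hc0
      filter_upwards [h1] with σ hσ
      exact line_shift H C α hα hHd hH1 hH2 hσ.1 hσ.2 hT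
    have hlim : Tendsto (fun σ : ℝ => ∫ y : ℝ, Complex.exp (((σ : ℂ) + y * Complex.I) * T) * H ((σ : ℂ) + y * Complex.I))
        (𝓝[>] 0) (𝓝 (∫ y : ℝ, Complex.exp ((y * Complex.I) * T) * H (y * Complex.I))) := by
      have hIoc : ∀ᶠ σ : ℝ in 𝓝[>] 0, σ ∈ Ioc 0 c := Ioc_mem_nhdsGT hc0
      refine tendsto_integral_filter_of_dominated_convergence
        (fun y => Real.exp (c * T) * maj C (min α 1 - 1) y) ?_ ?_ ((maj_int C hr).const_mul _) ?_
      · filter_upwards [hIoc] with σ hσ
        exact (line_int H C α hα hHd hH1 hH2 hσ.1).aestronglyMeasurable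
      · filter_upwards [hIoc] with σ hσ
        filter_upwards [hae] with y hy
        rw [norm_mul, exp_norm]
        refine mul_le_mul ?_ (maj_bound H C α hH1 hH2 σ y hσ.1.le hy) (norm_nonneg _) (Real.exp_pos _).le
        exact Real.exp_le_exp.2 (mul_le_mul_of_nonneg_right hσ.2 hT)
      · filter_upwards [hae] with y hy
        have hmem : (y * Complex.I : ℂ) ∈ ({v : ℂ | 0 ≤ v.re} \ {0} : Set ℂ) := by
          refine ⟨by change 0 ≤ (y * Complex.I : ℂ).re; simp, ?_⟩
          simp [hy]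
        have hcw := hHc _ hmem
        have hpath : Tendsto (fun σ : ℝ => (σ : ℂ) + y * Complex.I) (𝓝[>] 0) (𝓝[({v : ℂ | 0 ≤ v.re} \ {0} : Set ℂ)] (y * Complex.I)) := by
          refine tendsto_nhdsWithin_iff.2 ⟨?_, ?_⟩
          · have : Continuous fun σ : ℝ => (σ : ℂ) + y * Complex.I := by fun_prop
            have h2 := (this.tendsto 0).mono_left (nhdsWithin_le_nhds (s := Ioi 0))
            simpa using h2
          · filter_upwards [self_mem_nhdsWithin] with σ hσ
            have hσ' : 0 < σ := hσ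
            have hre : ((σ : ℂ) + y * Complex.I).re = σ := by simp
            refine ⟨by change 0 ≤ ((σ : ℂ) + y * Complex.I).re; rw [hre]; exact hσ'.le, ?_⟩
            intro h0
            have h0' : (σ : ℂ) + y * Complex.I = 0 := h0
            rw [h0'] at hre
            simp at hre
            exact hσ'.ne hre
        have hHl := hcw.tendsto.comp hpath
        have hEl : Tendsto (fun σ : ℝ => Complex.exp (((σ : ℂ) + y * Complex.I) * T)) (𝓝[>] 0)
            (𝓝 (Complex.exp ((y * Complex.I) * T))) := by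
          have : Continuous fun σ : ℝ => Complex.exp (((σ : ℂ) + y * Complex.I) * T) := by fun_prop
          have h2 := (this.tendsto 0).mono_left (nhdsWithin_le_nhds (s := Ioi 0))
          simpa using h2
        exact hEl.mul hHl
    have hlim2 := (tendsto_const_nhds (x := ∫ y : ℝ, Complex.exp (((c : ℂ) + y * Complex.I) * T) * H ((c : ℂ) + y * Complex.I))
      (f := 𝓝[>] (0 : ℝ))).congr' (hconst.mono fun σ h => h.symm)
    exact tendsto_nhds_unique hlim2 hlim
  -- the lemma of Riemann and Lebesgue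
  have hRL := Real.tendsto_integral_exp_smul_cocompact (fun y : ℝ => H (y * Complex.I))
  have hw : Tendsto (fun T : ℝ => -T / (2 * Real.pi)) atTop (cocompact ℝ) := by
    have h1 : Tendsto (fun T : ℝ => -T / (2 * Real.pi)) atTop atBot := by
      have : Tendsto (fun T : ℝ => T / (2 * Real.pi)) atTop atTop :=
        tendsto_id.atTop_div_const (by positivity)
      have h2 := tendsto_neg_atTop_atBot.comp this
      refine h2.congr (fun T => ?_)
      simp only [Function.comp]
      ring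
    exact h1.mono_right atBot_le_cocompact
  have h3 := (hRL.comp hw).const_smul ((2 * Real.pi)⁻¹ : ℝ)
  rw [smul_zero] at h3
  refine h3.congr' ?_
  filter_upwards [eventually_ge_atTop 0] with T hT
  rw [key T hT]
  simp only [Function.comp]
  congr 1
  refine integral_congr_ae (Eventually.of_forall fun y => ?_)
  simp only [Circle.smul_def, Real.fourierChar_apply, smul_eq_mul]
  congr 2
  push_cast
  have hpi : (Real.pi : ℂ) ≠ 0 := by exact_mod_cast Real.pi_ne_zero
  field_simp

end Pool.Agent.Q239.MQ.TB
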